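import Mathlib

/-!
# Elementary divisibility lemmas and homogeneous polynomials
-/

namespace Pool.Agent.helper73.Spl

open MvPolynomial

section UFD

variable {M : Type*} [CommRing M] [IsDomain M] [UniqueFactorizationMonoid M]

lemma dvd_of_two {a b u w : M} (hab : IsRelPrime a b) (ha : a ≠ 0)
    (h1 : u ∣ a * w) (h2 : u ∣ b * w) : u ∣ w := by
  obtain ⟨c, hc⟩ := h1
  obtain ⟨c', hc'⟩ := h2
  by_cases hu : u = 0
  · subst hu
    rw [zero_mul] at hc
    rcases mul_eq_zero.1 hc with h | h
    · exact absurd h ha
    · exact ⟨0, by simpa using h⟩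
  · have h : b * c = a * c' := by
      apply mul_left_cancel₀ hu
      linear_combination (-b) * hc + a * hc'
    have h3 : a ∣ b * c := ⟨c', h⟩
    have h4 : a ∣ c := hab.dvd_of_dvd_mul_left h3
    obtain ⟨e, he⟩ := h4
    refine ⟨e, ?_⟩
    apply mul_left_cancel₀ ha
    rw [hc, he]; ring

lemma sq_dvd_of_squarefree {f U m : M} (hf : Squarefree f) (h : U * U ∣ f * (m * m)) :
    U ∣ m := by
  have hf0 : f ≠ 0 := hf.ne_zero
  by_cases hU : U = 0
  · subst hU
    rw [zero_mul, zero_dvd_iff] at h
    have : m = 0 := by
      rcases mul_eq_zero.1 h with h | h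
      · exact absurd h hf0
      · exact (mul_self_eq_zero.1 h)
    simp [this]
  · obtain ⟨u, v, g, hrel, hu, hv⟩ := UniqueFactorizationMonoid.exists_reduced_factors U hU m
    have hg : g ≠ 0 := by
      rintro rfl
      apply hU
      rw [← hu, zero_mul]
    have h1 : u * u ∣ f * (v * v) := by
      rw [← hu, ← hv] at h
      have h2 : (g * g) * (u * u) ∣ (g * g) * (f * (v * v)) := by
        convert h using 1 <;> ring
      exact (mul_dvd_mul_iff_left (mul_ne_zero hg hg)).1 h2
    have h2 : u * u ∣ f := by
      have h3 : IsRelPrime (u * u) (v * v) := by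
        have := (hrel.pow_left (m := 2)).pow_right (n := 2)
        simpa [sq] using this
      exact h3.dvd_of_dvd_mul_right h1
    have hunit : IsUnit u := hf u h2
    obtain ⟨w, rfl⟩ := hunit
    rw [← hu, ← hv]
    exact ⟨(↑w⁻¹ : M) * v, by rw [mul_assoc, ← mul_assoc (w : M), Units.mul_inv, one_mul]⟩

end UFD

section Homog

variable {O : Type*} [CommRing O] [IsDomain O] {σ : Type*}

attribute [local instance] MvPolynomial.gradedAlgebra

lemma homogeneous_of_mul {p q : MvPolynomial σ O} {m k : ℕ} (hp : p.IsHomogeneous m)
    (hpq : (p * q).IsHomogeneous (m + k)) (hp0 : p ≠ 0) : q.IsHomogeneous k := by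
  classical
  have key : ∀ j, p * homogeneousComponent j q = homogeneousComponent (m + j) (p * q) := by
    intro j
    have := DirectSum.coe_decompose_mul_add_of_left_mem (𝒜 := homogeneousSubmodule σ O)
      (a := p) (b := q) (i := m) (j := j) ((mem_homogeneousSubmodule m p).2 hp)
    have h1 : ∀ (φ : MvPolynomial σ O) i, ((DirectSum.decompose (homogeneousSubmodule σ O) φ i :
        homogeneousSubmodule σ O i) : MvPolynomial σ O) = homogeneousComponent i φ := by
      intro φ i
      exact MvPolynomial.decomposition.decompose'_apply φ i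
    rw [h1, h1] at this
    exact this.symm
  have h2 : ∀ j, j ≠ k → homogeneousComponent j q = 0 := by
    intro j hj
    have h3 := key j
    rw [homogeneousComponent_of_mem hpq, if_neg (by omega)] at h3
    rcases mul_eq_zero.1 h3 with h | h
    · exact absurd h hp0
    · exact h
  have h4 : q = homogeneousComponent k q := by
    conv_lhs => rw [← sum_homogeneousComponent q]
    by_cases hk : k ∈ Finset.range (q.totalDegree + 1)
    · rw [Finset.sum_eq_single_of_mem k hk]
      intro j _ hj; exact h2 j hj
    · rw [homogeneousComponent_eq_zero k q (by simpa using hk)]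
      apply Finset.sum_eq_zero
      intro j hj
      apply h2 j
      rintro rfl
      exact hk hj
  rw [h4]
  exact homogeneousComponent_isHomogeneous k q

end Homog

end Pool.Agent.helper73.Spl
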