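import Mathlib

/-!
# Splinters and the splinter locus
-/

namespace Pool.Agent.helper73.Spl

/-- A commutative ring `A` is a splinter if it is Noetherian and, for every `A`-algebra `B` that is
finite as an `A`-module and for which `Spec B → Spec A` is surjective, the map `A → B` splits as a
map of `A`-modules: there is an `A`-linear `ρ : B → A` with `ρ 1 = 1`. -/
def IsSplinter (A : Type) [CommRing A] : Prop :=
  IsNoetherianRing A ∧ ∀ (B : Type) [CommRing B] [Algebra A B], Module.Finite A B →
    Function.Surjective (PrimeSpectrum.comap (algebraMap A B)) → ∃ ρ : B →ₗ[A] A, ρ 1 = 1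

/-- The splinter locus of `R`: the set of primes `p` such that `R_p` is a splinter. -/
def splinterLocus (R : Type) [CommRing R] : Set (PrimeSpectrum R) :=
  {p | IsSplinter (Localization.AtPrime p.asIdeal)}

end Pool.Agent.helper73.Spl
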