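import Pool.Agent.helper73.Spl.Wron

/-!
# The substitution `x ↦ a`, `y ↦ b` is finite and injective
-/

set_option linter.unusedSectionVars false

namespace Pool.Agent.helper73.Spl

open MvPolynomial

variable {O : Type} [CommRing O] [IsDomain O]

/-- the substitution `x ↦ a`, `y ↦ b` -/
noncomputable def sg (a b : MvPolynomial (Fin 2) O) :
    MvPolynomial (Fin 2) O →ₐ[O] MvPolynomial (Fin 2) O := aeval ![a, b]

@[simp] lemma sg_x (a b : MvPolynomial (Fin 2) O) : sg a b (X 0) = a := by simp [sg]
@[simp] lemma sg_y (a b : MvPolynomial (Fin 2) O) : sg a b (X 1) = b := by simp [sg]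

lemma X0_dvd_sub (P : MvPolynomial (Fin 2) O) :
    X 0 ∣ P - aeval ![0, X 1] P := by
  rw [← Ideal.mem_span_singleton, ← Ideal.Quotient.eq]
  have h : (Ideal.Quotient.mkₐ O (Ideal.span {(X 0 : MvPolynomial (Fin 2) O)})) =
      (Ideal.Quotient.mkₐ O (Ideal.span {(X 0 : MvPolynomial (Fin 2) O)})).comp
        (aeval ![0, X 1]) := by
    apply MvPolynomial.algHom_ext
    intro i
    fin_cases i
    · simp only [Fin.zero_eta, AlgHom.comp_apply, aeval_X, Matrix.cons_val_zero, map_zero]
      exact Ideal.Quotient.eq_zero_iff_mem.2 (Ideal.mem_span_singleton_self _)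
    · simp
  exact DFunLike.congr_fun h P

lemma X0_dvd_of_ev {P : MvPolynomial (Fin 2) O} (h : ev O P = 0) : X 0 ∣ P := by
  have h1 : aeval ![0, X 1] P = (Polynomial.aeval (X 1 : MvPolynomial (Fin 2) O)) (ev O P) := by
    have h2 : (aeval ![0, X 1] : MvPolynomial (Fin 2) O →ₐ[O] MvPolynomial (Fin 2) O) =
        (Polynomial.aeval (X 1 : MvPolynomial (Fin 2) O)).comp (ev O) := by
      apply MvPolynomial.algHom_ext
      intro i
      fin_cases i <;> simp
    exact DFunLike.congr_fun h2 P
  have h3 := X0_dvd_sub P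
  rwa [h1, h, map_zero, sub_zero] at h3

lemma ev_sg {n : ℕ} {a b : MvPolynomial (Fin 2) O} (g : Good n a b)
    (P : MvPolynomial (Fin 2) O) :
    ev O (sg a b P) = Polynomial.aeval (Polynomial.X ^ (n ^ 2)) (ev O P) := by
  have h : (ev O).comp (sg a b) =
      (Polynomial.aeval (Polynomial.X ^ (n ^ 2) : Polynomial O)).comp (ev O) := by
    apply MvPolynomial.algHom_ext
    intro i
    fin_cases i
    · simp [g.eva]
    · simp [g.evb]
  exact DFunLike.congr_fun h P

lemma sg_injective [UniqueFactorizationMonoid O] [CharZero O] {n : ℕ} (hn : n ≠ 0) {a b : MvPolynomial (Fin 2) O}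
    (g : Good n a b) : Function.Injective (sg a b) := by
  have ha : a ≠ 0 := by
    rintro rfl; exact g.quar_ne_zero hn (by simp [quar])
  have key : ∀ (m : ℕ) (P : MvPolynomial (Fin 2) O), P.totalDegree ≤ m → sg a b P = 0 →
      P = 0 := by
    intro m
    induction m with
    | zero =>
      intro P hP h0
      have := totalDegree_eq_zero_iff_eq_C.1 (Nat.le_zero.1 hP)
      rw [this] at h0 ⊢
      rw [sg, ← algebraMap_eq, AlgHom.commutes, algebraMap_eq] at h0
      exact h0
    | succ m ih =>
      intro P hP h0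
      have h1 : ev O P = 0 := by
        have := ev_sg g P
        rw [h0, map_zero] at this
        have h2 : Polynomial.expand O (n ^ 2) (ev O P) = 0 := by
          rw [Polynomial.coe_expand]
          rw [Polynomial.aeval_def] at this
          exact this.symm
        exact (Polynomial.expand_eq_zero (pow_pos (Nat.pos_of_ne_zero hn) 2)).1 h2
      obtain ⟨Q, rfl⟩ := X0_dvd_of_ev h1
      by_cases hQ : Q = 0
      · rw [hQ, mul_zero]
      rw [map_mul, sg_x] at h0
      have h2 : sg a b Q = 0 := (mul_eq_zero.1 h0).resolve_left ha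
      have h3 : Q.totalDegree ≤ m := by
        rw [totalDegree_mul_of_isDomain (X_ne_zero 0) hQ, totalDegree_X] at hP
        omega
      rw [ih Q h3 h2, mul_zero]
  exact (injective_iff_map_eq_zero (sg a b)).2 (fun P hP => key _ P le_rfl hP)

lemma homogeneousComponent_mul_left {p q : MvPolynomial (Fin 2) O} {m j : ℕ}
    (hp : p.IsHomogeneous m) :
    homogeneousComponent (m + j) (p * q) = p * homogeneousComponent j q := by
  classical
  let _ := MvPolynomial.gradedAlgebra (σ := Fin 2) (R := O)
  have := DirectSum.coe_decompose_mul_add_of_left_mem (𝒜 := homogeneousSubmodule (Fin 2) O)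
      (a := p) (b := q) (i := m) (j := j) ((mem_homogeneousSubmodule m p).2 hp)
  have h1 : ∀ (φ : MvPolynomial (Fin 2) O) i, ((DirectSum.decompose (homogeneousSubmodule (Fin 2) O)
      φ i : homogeneousSubmodule (Fin 2) O i) : MvPolynomial (Fin 2) O) =
        homogeneousComponent i φ := by
    intro φ i
    exact MvPolynomial.decomposition.decompose'_apply φ i
  rw [h1, h1] at this
  exact this

/-- A power of a variable is a combination of `a, b` with homogeneous coefficients. -/
lemma pow_mem_homog {n : ℕ} {a b : MvPolynomial (Fin 2) O} (ha : a.IsHomogeneous n)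
    (hb : b.IsHomogeneous n) {i : Fin 2}
    (hr : (X i : MvPolynomial (Fin 2) O) ∈ (Ideal.span {a, b}).radical) :
    ∃ K, ∀ k, K ≤ k → ∃ α β : MvPolynomial (Fin 2) O, α.IsHomogeneous (k - n) ∧
      β.IsHomogeneous (k - n) ∧ (X i) ^ k = α * a + β * b ∧ n ≤ k := by
  obtain ⟨k₀, hk₀⟩ := hr
  refine ⟨k₀ + n, fun k hk => ?_⟩
  have hk' : (X i : MvPolynomial (Fin 2) O) ^ k ∈ Ideal.span {a, b} := by
    have : k = k₀ + (k - k₀) := by omega
    rw [this, pow_add]
    exact Ideal.mul_mem_right _ _ hk₀
  obtain ⟨α, β, h⟩ := Ideal.mem_span_pair.1 hk'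
  refine ⟨homogeneousComponent (k - n) α, homogeneousComponent (k - n) β,
    homogeneousComponent_isHomogeneous _ _, homogeneousComponent_isHomogeneous _ _, ?_, by omega⟩
  have h1 := congrArg (homogeneousComponent (n + (k - n))) h
  rw [map_add, mul_comm α a, mul_comm β b, homogeneousComponent_mul_left ha,
    homogeneousComponent_mul_left hb] at h1
  have h2 : homogeneousComponent (n + (k - n)) ((X i : MvPolynomial (Fin 2) O) ^ k)
      = (X i) ^ k := by
    have h3 : ((X i : MvPolynomial (Fin 2) O) ^ k).IsHomogeneous k := by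
      simpa using (isHomogeneous_X O i).pow k
    have h4 : n + (k - n) = k := by omega
    rw [h4, homogeneousComponent_of_mem h3, if_pos rfl]
  rw [h2] at h1
  rw [← h1]; ring

/-- `O[x,y]` is finite over `O[a,b]`. -/
theorem finite_over_range {n : ℕ} (hn : n ≠ 0) {a b : MvPolynomial (Fin 2) O}
    (ha : a.IsHomogeneous n) (hb : b.IsHomogeneous n)
    (rx : (X 0 : MvPolynomial (Fin 2) O) ∈ (Ideal.span {a, b}).radical)
    (ry : (X 1 : MvPolynomial (Fin 2) O) ∈ (Ideal.span {a, b}).radical) :
    Module.Finite (sg a b).range (MvPolynomial (Fin 2) O) := by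
  obtain ⟨K₀, hK₀⟩ := pow_mem_homog ha hb rx
  obtain ⟨K₁, hK₁⟩ := pow_mem_homog ha hb ry
  set K := max K₀ K₁ with hK
  set S := (sg a b).range with hS
  have haS : a ∈ S := ⟨X 0, by simp⟩
  have hbS : b ∈ S := ⟨X 1, by simp⟩
  let gen : Fin K × Fin K → MvPolynomial (Fin 2) O := fun p => (X 0) ^ (p.1 : ℕ) * (X 1) ^ (p.2 : ℕ)
  set N : Submodule S (MvPolynomial (Fin 2) O) := Submodule.span S (Set.range gen) with hN
  have hsm : ∀ (s : MvPolynomial (Fin 2) O) (_ : s ∈ S) (z) (_ : z ∈ N), s * z ∈ N := by
    intro s hs z hz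
    have := N.smul_mem (⟨s, hs⟩ : S) hz
    rwa [Subalgebra.smul_def] at this
  have hC : ∀ c : O, (C c : MvPolynomial (Fin 2) O) ∈ S := fun c => S.algebraMap_mem c
  -- all monomials
  have key : ∀ d, ∀ p : MvPolynomial (Fin 2) O, p.IsHomogeneous d → p ∈ N := by
    intro d
    induction d using Nat.strong_induction_on with
    | _ d ih =>
      have hmon : ∀ i j : ℕ, i + j = d → (X 0 : MvPolynomial (Fin 2) O) ^ i * (X 1) ^ j ∈ N := by
        intro i j hij
        by_cases hi : K ≤ i
        · obtain ⟨α, β, hα, hβ, h, hle⟩ := hK₀ i (le_trans (le_max_left _ _) hi)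
          rw [h]
          have e : (α * a + β * b) * (X 1) ^ j = a * (α * (X 1) ^ j) + b * (β * (X 1) ^ j) := by
            ring
          rw [e]
          have hX : ((X 1 : MvPolynomial (Fin 2) O) ^ j).IsHomogeneous j := by
            simpa using (isHomogeneous_X O 1).pow j
          apply N.add_mem
          · exact hsm _ haS _ (ih (i - n + j) (by omega) _ (hα.mul hX))
          · exact hsm _ hbS _ (ih (i - n + j) (by omega) _ (hβ.mul hX))
        by_cases hj : K ≤ j
        · obtain ⟨α, β, hα, hβ, h, hle⟩ := hK₁ j (le_trans (le_max_right _ _) hj)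
          rw [h]
          have e : (X 0) ^ i * (α * a + β * b) = a * ((X 0) ^ i * α) + b * ((X 0) ^ i * β) := by
            ring
          rw [e]
          have hX : ((X 0 : MvPolynomial (Fin 2) O) ^ i).IsHomogeneous i := by
            simpa using (isHomogeneous_X O 0).pow i
          apply N.add_mem
          · exact hsm _ haS _ (ih (i + (j - n)) (by omega) _ (hX.mul hα))
          · exact hsm _ hbS _ (ih (i + (j - n)) (by omega) _ (hX.mul hβ))
        exact Submodule.subset_span ⟨(⟨i, by omega⟩, ⟨j, by omega⟩), rfl⟩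
      intro p hp
      rw [p.as_sum]
      apply N.sum_mem
      intro m hm
      have hd : m 0 + m 1 = d := by
        have := hp (mem_support_iff.1 hm)
        rw [Finsupp.weight_apply, Finsupp.sum_fintype _ _ (by simp), Fin.sum_univ_two] at this
        simpa using this
      have e : monomial m (coeff m p) = C (coeff m p) * ((X 0) ^ (m 0) * (X 1) ^ (m 1)) := by
        rw [monomial_eq, Finsupp.prod_fintype _ _ (by simp), Fin.prod_univ_two]
      rw [e]
      exact hsm _ (hC _) _ (hmon _ _ hd)
  have htop : N = ⊤ := by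
    rw [eq_top_iff]
    intro p _
    rw [← sum_homogeneousComponent p]
    exact N.sum_mem fun i _ => key i _ (homogeneousComponent_isHomogeneous i p)
  exact ⟨⟨(Set.finite_range gen).toFinset, by simpa using htop⟩⟩

theorem sg_finite {n : ℕ} (hn : n ≠ 0) {a b : MvPolynomial (Fin 2) O}
    (g : Good n a b) : (sg a b).toRingHom.Finite := by
  have := finite_over_range (pow_ne_zero 2 hn) g.ha g.hb g.rx g.ry
  have h1 : (algebraMap (sg a b).range (MvPolynomial (Fin 2) O)).Finite :=
    RingHom.finite_algebraMap.2 inferInstance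
  have h2 : (sg a b).rangeRestrict.toRingHom.Finite :=
    RingHom.Finite.of_surjective _ (sg a b).rangeRestrict_surjective
  have h3 := h1.comp h2
  exact h3

end Pool.Agent.helper73.Spl
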