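import Pool.Agent.helper73.Spl.Defs

/-!
# Normal domains in which all positive integers are invertible are splinters
-/

namespace Pool.Agent.helper73.Spl

open scoped nonZeroDivisors

attribute [local instance] FractionRing.liftAlgebra in
theorem exists_split (A C : Type) [CommRing A] [IsDomain A] [IsIntegrallyClosed A]
    [CommRing C] [IsDomain C] [Algebra A C] [Module.Finite A C]
    (hinj : Function.Injective (algebraMap A C))
    (hA : ∀ n : ℕ, n ≠ 0 → IsUnit (n : A)) :
    ∃ ρ : C →ₗ[A] A, ρ 1 = 1 := by
  have hf : FaithfulSMul A C := (faithfulSMul_iff_algebraMap_injective A C).2 hinj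
  let K := FractionRing A
  let L := FractionRing C
  have : FaithfulSMul A L := (faithfulSMul_iff_algebraMap_injective A L).2 (by
    rw [IsScalarTower.algebraMap_eq A C L]
    exact (IsFractionRing.injective C L).comp hinj)
  have : FiniteDimensional K L := .of_isLocalization A C A⁰
  -- the trace
  have hint : ∀ x : C, IsIntegral A (Algebra.trace K L (algebraMap C L x)) := fun x =>
    Algebra.isIntegral_trace (IsIntegral.algebraMap (Algebra.IsIntegral.isIntegral x))
  have hex : ∀ x : C, ∃ y : A, algebraMap A K y = Algebra.trace K L (algebraMap C L x) := fun x =>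
    IsIntegrallyClosed.isIntegral_iff.1 (hint x)
  choose t ht using hex
  let T : C →ₗ[A] A :=
    { toFun := t
      map_add' := fun x y => by
        apply IsFractionRing.injective A K
        rw [map_add, ht, ht, ht, map_add, map_add]
      map_smul' := fun r x => by
        apply IsFractionRing.injective A K
        rw [RingHom.id_apply, smul_eq_mul, map_mul, ht, ht, Algebra.smul_def, map_mul,
          ← IsScalarTower.algebraMap_apply A C L, IsScalarTower.algebraMap_apply A K L,
          ← Algebra.smul_def, map_smul, smul_eq_mul] }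
  have hT1 : T 1 = (Module.finrank K L : A) := by
    apply IsFractionRing.injective A K
    show algebraMap A K (t 1) = _
    rw [ht, map_one, ← map_one (algebraMap K L), Algebra.trace_algebraMap, map_natCast,
      nsmul_eq_mul, mul_one]
  obtain ⟨u, hu⟩ := hA (Module.finrank K L) (Module.finrank_pos).ne'
  refine ⟨(↑u⁻¹ : A) • T, ?_⟩
  rw [LinearMap.smul_apply, hT1, ← hu, smul_eq_mul, Units.inv_mul]

/-- A Noetherian normal domain in which all positive integers are invertible is a splinter. -/
theorem isSplinter_of_normal (A : Type) [CommRing A] [IsDomain A] [IsNoetherianRing A]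
    [IsIntegrallyClosed A] (hA : ∀ n : ℕ, n ≠ 0 → IsUnit (n : A)) : IsSplinter A := by
  refine ⟨inferInstance, fun B _ _ hfin hsurj => ?_⟩
  obtain ⟨Q, hQ⟩ := hsurj ⟨⊥, Ideal.isPrime_bot⟩
  have hQ' : Q.asIdeal.comap (algebraMap A B) = ⊥ := congrArg PrimeSpectrum.asIdeal hQ
  let C := B ⧸ Q.asIdeal
  have hinj : Function.Injective (algebraMap A C) := by
    rw [injective_iff_map_eq_zero]
    intro a ha
    have h1 : (Ideal.Quotient.mk Q.asIdeal) (algebraMap A B a) = 0 := ha
    rw [Ideal.Quotient.eq_zero_iff_mem] at h1
    have h2 : a ∈ Q.asIdeal.comap (algebraMap A B) := h1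
    rw [hQ'] at h2
    exact h2
  obtain ⟨ρ, hρ⟩ := exists_split A C hinj hA
  refine ⟨ρ.comp (Ideal.Quotient.mkₐ A Q.asIdeal).toLinearMap, ?_⟩
  simp only [LinearMap.comp_apply, AlgHom.toLinearMap_apply, map_one]
  exact hρ

end Pool.Agent.helper73.Spl
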