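import Pool.Agent.helper73.Spl.Normal
import Pool.Agent.helper73.Spl.Split

/-!
# The splinter locus of `ℤ[1/2][x,y,w]/(w² - xy(y² - x²))` is not open
-/

namespace Pool.Agent.helper73.Spl

open MvPolynomial

/-- The ring `ℤ[1/2]`. -/
abbrev ZH : Type := Localization.Away (2 : ℤ)

lemma powers_le : Submonoid.powers (2 : ℤ) ≤ nonZeroDivisors ℤ :=
  powers_le_nonZeroDivisors_of_noZeroDivisors (by norm_num)

instance : IsDomain ZH := IsLocalization.isDomain_localization powers_le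

instance : IsPrincipalIdealRing ZH := by
  refine ⟨fun I => ?_⟩
  rw [← IsLocalization.map_under (Submonoid.powers (2 : ℤ)) ZH I]
  obtain ⟨d, hd⟩ := (IsPrincipalIdealRing.principal (I.under ℤ))
  refine ⟨algebraMap ℤ ZH d, ?_⟩
  rw [hd]
  rw [Ideal.submodule_span_eq, Ideal.map_span, Set.image_singleton]

lemma ZH_inj : Function.Injective (algebraMap ℤ ZH) :=
  IsLocalization.injective ZH powers_le

instance : CharZero ZH := charZero_of_injective_algebraMap ZH_inj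

lemma isUnit_two : IsUnit (2 : ZH) := by
  have := IsLocalization.Away.algebraMap_isUnit (S := ZH) (2 : ℤ)
  rwa [map_ofNat] at this

lemma ZH_surj (r : ZH) : ∃ (k : ℤ) (j : ℕ), r * 2 ^ j = (k : ZH) := by
  obtain ⟨j, k, h⟩ := IsLocalization.Away.surj (2 : ℤ) r
  refine ⟨k, j, ?_⟩
  rw [map_ofNat] at h
  rw [h]
  simp

section q

variable (ℓ : ℕ) [Fact ℓ.Prime]

lemma two_ne (hℓ : ℓ ≠ 2) : (2 : ZMod ℓ) ≠ 0 := by
  intro h
  have h1 : ((2 : ℕ) : ZMod ℓ) = 0 := by exact_mod_cast h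
  rw [ZMod.natCast_eq_zero_iff] at h1
  exact hℓ ((Nat.prime_dvd_prime_iff_eq Fact.out Nat.prime_two).1 h1)

/-- reduction modulo `ℓ` -/
noncomputable def qq (hℓ : ℓ ≠ 2) : ZH →+* ZMod ℓ :=
  IsLocalization.Away.lift (S := ZH) (2 : ℤ) (g := Int.castRingHom (ZMod ℓ))
    (by rw [map_ofNat]; exact isUnit_iff_ne_zero.2 (two_ne ℓ hℓ))

lemma qq_eq_zero (hℓ : ℓ ≠ 2) (r : ZH) : qq ℓ hℓ r = 0 ↔ (ℓ : ZH) ∣ r := by
  constructor
  · intro h
    obtain ⟨k, j, hk⟩ := ZH_surj r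
    have h1 := congrArg (qq ℓ hℓ) hk
    rw [map_mul, h, zero_mul, map_intCast] at h1
    have h2 : (ℓ : ℤ) ∣ k := (ZMod.intCast_zmod_eq_zero_iff_dvd k ℓ).1 h1.symm
    obtain ⟨c, rfl⟩ := h2
    obtain ⟨u, hu⟩ := isUnit_two.pow j
    refine ⟨c * (↑u⁻¹ : ZH), ?_⟩
    have h3 : (u : ZH) * (↑u⁻¹ : ZH) = 1 := Units.mul_inv u
    rw [← hu] at hk
    push_cast at hk
    linear_combination (↑u⁻¹ : ZH) * hk - r * h3
  · rintro ⟨c, rfl⟩
    rw [map_mul, map_natCast, ZMod.natCast_self, zero_mul]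

end q

/-- The ring `ℤ[1/2][x,y,w]/(w² - xy(y² - x²))`. -/
abbrev R0 : Type := RR ZH

lemma isUnit_two' : IsUnit (2 : MvPolynomial (Fin 2) ZH) := by
  have := isUnit_two.map (C : ZH →+* MvPolynomial (Fin 2) ZH)
  rwa [map_ofNat] at this

lemma not_isUnit_quar : ¬ IsUnit (quar (X 0) (X 1) : MvPolynomial (Fin 2) ZH) := by
  intro h
  have := h.map (constantCoeff : MvPolynomial (Fin 2) ZH →+* ZH)
  rw [constantCoeff_quar] at this
  exact not_isUnit_zero this

instance isDomain_R0 : IsDomain R0 :=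
  isDomain_quad (squarefree_quar isUnit_two) not_isUnit_quar

instance isIntegrallyClosed_R0 : IsIntegrallyClosed R0 :=
  isIntegrallyClosed_quad isUnit_two' (squarefree_quar isUnit_two) not_isUnit_quar

instance finiteType_ZH : Algebra.FiniteType ℤ ZH :=
  IsLocalization.finiteType_of_monoid_fg (Submonoid.powers (2 : ℤ)) ZH

instance finiteType_R0 : Algebra.FiniteType ℤ R0 := by
  have h1 : Algebra.FiniteType ZH (MvPolynomial (Fin 2) ZH) := inferInstance
  have h2 : Algebra.FiniteType ℤ (MvPolynomial (Fin 2) ZH) := Algebra.FiniteType.trans finiteType_ZH h1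
  have h3 : Algebra.FiniteType (MvPolynomial (Fin 2) ZH) R0 := inferInstance
  exact Algebra.FiniteType.trans h2 h3

instance isNoetherian_R0 : IsNoetherianRing R0 := Algebra.FiniteType.isNoetherianRing ℤ R0

/-- The prime `(x, y, w)`. -/
noncomputable def p0 : PrimeSpectrum R0 := ⟨RingHom.ker (ev0 (RingHom.id ZH)), ker_prime _⟩

theorem p0_mem : p0 ∈ splinterLocus R0 := by
  show IsSplinter (Localization.AtPrime p0.asIdeal)
  have hle : p0.asIdeal.primeCompl ≤ nonZeroDivisors R0 := p0.asIdeal.primeCompl_le_nonZeroDivisors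
  have i1 : IsDomain (Localization.AtPrime p0.asIdeal) := IsLocalization.isDomain_localization hle
  have i2 : IsIntegrallyClosed (Localization.AtPrime p0.asIdeal) :=
    isIntegrallyClosed_of_isLocalization _ p0.asIdeal.primeCompl hle
  apply isSplinter_of_normal
  intro n hn
  have h1 : (n : R0) ∈ p0.asIdeal.primeCompl := by
    intro h
    have h2 : ev0 (RingHom.id ZH) (n : R0) = 0 := h
    rw [map_natCast, Nat.cast_eq_zero] at h2
    exact hn h2
  have h2 := IsLocalization.map_units (Localization.AtPrime p0.asIdeal) (⟨(n : R0), h1⟩ : p0.asIdeal.primeCompl)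
  rwa [map_natCast] at h2

/-- The prime `(ℓ, x, y, w)`. -/
noncomputable def mm (ℓ : ℕ) [Fact ℓ.Prime] (hℓ : ℓ ≠ 2) : PrimeSpectrum R0 :=
  ⟨RingHom.ker (ev0 (qq ℓ hℓ)), ker_prime _⟩

theorem mm_notMem (ℓ : ℕ) [Fact ℓ.Prime] (hℓ : ℓ ≠ 2) : mm ℓ hℓ ∉ splinterLocus R0 :=
  not_isSplinter isUnit_two ℓ (qq ℓ hℓ) (qq_eq_zero ℓ hℓ)

theorem not_isOpen : ¬ IsOpen (splinterLocus R0) := by
  intro ho
  obtain ⟨_, ⟨g, rfl⟩, hp, hsub⟩ :=
    PrimeSpectrum.isTopologicalBasis_basic_opens.exists_subset_of_mem_open p0_mem ho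
  have hg : g ∉ RingHom.ker (ev0 (RingHom.id ZH)) := hp
  rw [RingHom.mem_ker, ev0_apply, RingHom.id_apply] at hg
  obtain ⟨k, j, hk⟩ := ZH_surj (constantCoeff g.re)
  have hk0 : k ≠ 0 := by
    rintro rfl
    rw [Int.cast_zero] at hk
    exact hg ((mul_eq_zero.1 hk).resolve_right (pow_ne_zero j two_ne_zero))
  obtain ⟨ℓ, hℓ1, hℓ2⟩ := Nat.exists_infinite_primes (k.natAbs + 3)
  have : Fact ℓ.Prime := ⟨hℓ2⟩
  have hℓ : ℓ ≠ 2 := by omega
  apply mm_notMem ℓ hℓ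
  apply hsub
  show g ∉ RingHom.ker (ev0 (qq ℓ hℓ))
  rw [RingHom.mem_ker, ev0_apply]
  intro h
  have h1 := congrArg (qq ℓ hℓ) hk
  rw [map_mul, h, zero_mul, map_intCast] at h1
  have h2 : (ℓ : ℤ) ∣ k := (ZMod.intCast_zmod_eq_zero_iff_dvd k ℓ).1 h1.symm
  have h3 := Int.le_of_dvd (by positivity) ((dvd_abs _ _).2 h2)
  have h4 : |k| = (k.natAbs : ℤ) := Int.abs_eq_natAbs k
  omega

end Pool.Agent.helper73.Spl
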