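import Pool.Agent.helper73.Spl.Ring

/-!
# `D[w]/(w² - f)` is a normal domain
-/

namespace Pool.Agent.helper73.Spl

set_option linter.unusedSectionVars false

section

variable {D : Type} [CommRing D] [IsDomain D] [UniqueFactorizationMonoid D] {f : D}

/-- The quadratic algebra over the fraction field. -/
abbrev LL (f : D) : Type :=
  QuadraticAlgebra (FractionRing D) (algebraMap D (FractionRing D) f) 0

/-- the embedding of `D[w]/(w² - f)` in `K[w]/(w² - f)` -/
noncomputable def emb (f : D) : QuadraticAlgebra D f 0 →ₐ[D]
    LL f :=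
  { twist (algebraMap D (FractionRing D)) 1 (by simp) with
    commutes' := fun r => by
      apply QuadraticAlgebra.ext
      · rfl
      · show algebraMap D (FractionRing D) 0 * 1 = 0
        simp }

lemma emb_apply (z : QuadraticAlgebra D f 0) :
    emb f z = ⟨algebraMap D (FractionRing D) z.re, algebraMap D (FractionRing D) z.im⟩ := by
  apply QuadraticAlgebra.ext
  · rfl
  · show algebraMap D (FractionRing D) z.im * 1 = _
    rw [mul_one]

lemma emb_injective (f : D) : Function.Injective (emb f) := by
  intro z w h
  rw [emb_apply, emb_apply] at h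
  have i := IsFractionRing.injective D (FractionRing D)
  exact QuadraticAlgebra.ext (i (congrArg QuadraticAlgebra.re h))
    (i (congrArg QuadraticAlgebra.im h))

/-- conjugation -/
noncomputable def conj (f : D) : LL f →ₐ[D]
    LL f :=
  { twist (RingHom.id (FractionRing D)) (-1) (by simp) with
    commutes' := fun r => by
      apply QuadraticAlgebra.ext
      · rfl
      · show (0 : FractionRing D) * (-1) = 0
        simp }

lemma conj_apply (z : LL f) :
    conj f z = ⟨z.re, -z.im⟩ := by
  apply QuadraticAlgebra.ext
  · rfl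
  · show z.im * (-1) = _
    ring

lemma exists_emb_eq (h2 : IsUnit (2 : D)) (hf : Squarefree f)
    {z : LL f}
    (hz : IsIntegral D z) : ∃ w, emb f w = z := by
  let K := FractionRing D
  let L := LL f
  have inj : Function.Injective (algebraMap K L) := QuadraticAlgebra.algebraMap_injective
  have tower : IsScalarTower D K L := IsScalarTower.of_algebraMap_eq (fun _ => rfl)
  have hK' : ∀ t : K, IsIntegral D (algebraMap K L t) → ∃ c : D, algebraMap D K c = t := by
    intro t ht
    rw [isIntegral_algebraMap_iff inj] at ht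
    exact IsIntegrallyClosed.isIntegral_iff.1 ht
  -- the real part
  have h1 : IsIntegral D (z + conj f z) := hz.add (hz.map (conj f))
  have h1' : z + conj f z = algebraMap K L (2 * z.re) := by
    rw [conj_apply]
    apply QuadraticAlgebra.ext
    · show z.re + z.re = 2 * z.re
      ring
    · show z.im + -z.im = 0
      ring
  rw [h1'] at h1
  obtain ⟨c, hc⟩ := hK' _ h1
  obtain ⟨u2, hu2⟩ := h2
  have hre : ∃ p : D, algebraMap D K p = z.re := by
    refine ⟨(↑u2⁻¹ : D) * c, ?_⟩
    rw [map_mul, hc]
    have : algebraMap D K (↑u2⁻¹ : D) * 2 = 1 := by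
      have h3 : (2 : K) = algebraMap D K (u2 : D) := by rw [hu2, map_ofNat]
      rw [h3, ← map_mul, Units.inv_mul, map_one]
    linear_combination z.re * this
  obtain ⟨p, hp⟩ := hre
  -- the imaginary part
  have h3 : IsIntegral D (z - algebraMap D L p) := hz.sub isIntegral_algebraMap
  have h4 : (z - algebraMap D L p) * (z - algebraMap D L p)
      = algebraMap K L (algebraMap D K f * z.im ^ 2) := by
    have e : z - algebraMap D L p = ⟨0, z.im⟩ := by
      apply QuadraticAlgebra.ext
      · show z.re - algebraMap D K p = 0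
        rw [hp, sub_self]
      · show z.im - 0 = z.im
        rw [sub_zero]
    rw [e]
    apply QuadraticAlgebra.ext
    · show 0 * 0 + algebraMap D K f * z.im * z.im = algebraMap D K f * z.im ^ 2
      ring
    · show 0 * z.im + z.im * 0 + 0 * z.im * z.im = 0
      ring
  have h5 := h3.mul h3
  rw [h4] at h5
  obtain ⟨g, hg⟩ := hK' _ h5
  obtain ⟨r, s, hs, hrs⟩ := IsFractionRing.div_surjective (A := D) z.im
  have hs0 : s ≠ 0 := nonZeroDivisors.ne_zero hs
  have hs0' : algebraMap D K s ≠ 0 := by
    intro h
    exact hs0 (IsFractionRing.injective D K (by rw [h, map_zero]))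
  have hrs' : algebraMap D K r = z.im * algebraMap D K s := (div_eq_iff hs0').1 hrs
  have h6 : s * s ∣ f * (r * r) := by
    refine ⟨g, ?_⟩
    apply IsFractionRing.injective D K
    show algebraMap D K _ = algebraMap D K _
    rw [map_mul, map_mul, map_mul, map_mul, hg, hrs']
    ring
  have h7 : s ∣ r := sq_dvd_of_squarefree hf h6
  obtain ⟨v, rfl⟩ := h7
  have him : algebraMap D K v = z.im := by
    rw [map_mul] at hrs'
    apply mul_left_cancel₀ hs0'
    linear_combination hrs'
  refine ⟨⟨p, v⟩, ?_⟩
  rw [emb_apply]
  exact QuadraticAlgebra.ext hp him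

lemma not_sq (hf : Squarefree f) (hfu : ¬ IsUnit f) (r : FractionRing D) :
    r ^ 2 ≠ algebraMap D (FractionRing D) f + 0 * r := by
  intro h
  rw [zero_mul, add_zero] at h
  have h1 : IsIntegral D r := by
    refine ⟨Polynomial.X ^ 2 - Polynomial.C f, Polynomial.monic_X_pow_sub_C f two_ne_zero, ?_⟩
    rw [Polynomial.eval₂_sub, Polynomial.eval₂_pow, Polynomial.eval₂_X, Polynomial.eval₂_C, h,
      sub_self]
  obtain ⟨g, rfl⟩ := IsIntegrallyClosed.isIntegral_iff.1 h1
  rw [← map_pow] at h
  have h2 := IsFractionRing.injective D (FractionRing D) h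
  have h3 : IsUnit g := hf g ⟨1, by rw [← h2]; ring⟩
  exact hfu (by rw [← h2]; exact h3.pow 2)

theorem isDomain_quad (hf : Squarefree f) (hfu : ¬ IsUnit f) :
    IsDomain (QuadraticAlgebra D f 0) := by
  have : Fact (∀ r : FractionRing D, r ^ 2 ≠ algebraMap D (FractionRing D) f + 0 * r) :=
    ⟨not_sq hf hfu⟩
  exact (emb_injective f).isDomain (emb f).toRingHom

theorem isIntegrallyClosed_quad (h2 : IsUnit (2 : D)) (hf : Squarefree f) (hfu : ¬ IsUnit f) :
    IsIntegrallyClosed (QuadraticAlgebra D f 0) := by
  have : Fact (∀ r : FractionRing D, r ^ 2 ≠ algebraMap D (FractionRing D) f + 0 * r) :=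
    ⟨not_sq hf hfu⟩
  let K := FractionRing D
  let L := LL f
  have tower : IsScalarTower D K L := IsScalarTower.of_algebraMap_eq (fun _ => rfl)
  have h1 : IsIntegrallyClosed (integralClosure D L) :=
    integralClosure.isIntegrallyClosedOfFiniteExtension K
  have hmem : ∀ z, emb f z ∈ integralClosure D L := fun z =>
    (Algebra.IsIntegral.isIntegral z).map (emb f)
  let e : QuadraticAlgebra D f 0 →ₐ[D] integralClosure D L := (emb f).codRestrict _ hmem
  have he : Function.Bijective e := by
    constructor
    · intro z w h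
      exact emb_injective f (congrArg Subtype.val h)
    · rintro ⟨z, hz⟩
      obtain ⟨w, hw⟩ := exists_emb_eq h2 hf hz
      exact ⟨w, Subtype.ext hw⟩
  exact IsIntegrallyClosed.of_equiv (RingEquiv.ofBijective e he).symm

end

end Pool.Agent.helper73.Spl
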