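import Pool.Agent.helper73.Spl.Fin
import Pool.Agent.helper73.Spl.Defs

/-!
# Non-splinters at the primes `(ℓ, x, y, w)`
-/

set_option linter.unusedSectionVars false

namespace Pool.Agent.helper73.Spl

open MvPolynomial

section general

/-- A criterion for a localization not to be a splinter. -/
theorem not_isSplinter_atPrime {R R' T : Type} [CommRing R] [CommRing R'] [Algebra R R']
    [Module.Finite R R'] (hinj : Function.Injective (algebraMap R R'))
    (m : Ideal R) [m.IsPrime] [CommRing T] (π : R →+* T) (hπ : ∀ g, g ∉ m → IsUnit (π g))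
    (x y l w : R) (α β γ : R')
    (h : algebraMap R R' w = α * algebraMap R R' x + β * algebraMap R R' y
      + γ * algebraMap R R' l)
    (hx : π x = 0) (hy : π y = 0) (hl : π l = 0) (hw : π w ≠ 0) :
    ¬ IsSplinter (Localization.AtPrime m) := by
  rintro ⟨-, hspl⟩
  let B := Localization (Algebra.algebraMapSubmonoid R' m.primeCompl)
  have hfin : Module.Finite (Localization.AtPrime m) B := inferInstance
  have hinj' : Function.Injective (algebraMap (Localization.AtPrime m) B) :=
    localizationAlgebra_injective (Localization.AtPrime m) B hinj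
  have hint : Algebra.IsIntegral (Localization.AtPrime m) B := inferInstance
  have hsurj : Function.Surjective (PrimeSpectrum.comap (algebraMap (Localization.AtPrime m) B)) := by
    have : FaithfulSMul (Localization.AtPrime m) B := (faithfulSMul_iff_algebraMap_injective _ _).2 hinj'
    exact Algebra.IsIntegral.comap_surjective _ _
  obtain ⟨ρ, hρ⟩ := hspl B hfin hsurj
  let ι : R →+* Localization.AtPrime m := algebraMap R (Localization.AtPrime m)
  have hcomm : ∀ r : R, algebraMap (Localization.AtPrime m) B (ι r)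
      = algebraMap R' B (algebraMap R R' r) := by
    intro r
    have h1 : algebraMap (Localization.AtPrime m) B (ι r) = algebraMap R B r :=
      (IsScalarTower.algebraMap_apply R (Localization.AtPrime m) B r).symm
    rw [h1]
    exact IsScalarTower.algebraMap_apply R R' B r
  have hB : algebraMap (Localization.AtPrime m) B (ι w) =
      (ι x) • (algebraMap R' B α) + (ι y) • (algebraMap R' B β) + (ι l) • (algebraMap R' B γ) := by
    rw [Algebra.smul_def, Algebra.smul_def, Algebra.smul_def, hcomm, hcomm, hcomm, hcomm, h]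
    rw [map_add, map_add, map_mul, map_mul, map_mul]
    ring
  have hA : ι w = ι x * ρ (algebraMap R' B α) + ι y * ρ (algebraMap R' B β)
      + ι l * ρ (algebraMap R' B γ) := by
    have h1 := congrArg ρ hB
    rw [map_add, map_add, map_smul, map_smul, map_smul, Algebra.algebraMap_eq_smul_one, map_smul,
      hρ] at h1
    simpa using h1
  let Pi' : Localization.AtPrime m →+* T :=
    IsLocalization.lift (M := m.primeCompl) (g := π) (fun g => hπ g.1 g.2)
  have hPi : ∀ r, Pi' (ι r) = π r := fun r => IsLocalization.lift_eq _ r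
  have h2 := congrArg Pi' hA
  rw [map_add, map_add, map_mul, map_mul, map_mul, hPi, hPi, hPi, hPi, hx, hy, hl] at h2
  apply hw
  rw [h2]; ring

end general

/-- A ring homomorphism of quadratic algebras over a ring homomorphism `τ`, given by
`ω ↦ U ω`. -/
def twist {D E : Type} [CommRing D] [CommRing E] (τ : D →+* E) {f : D} {g : E} (U : E)
    (h : τ f = g * U ^ 2) : QuadraticAlgebra D f 0 →+* QuadraticAlgebra E g 0 where
  toFun z := ⟨τ z.re, τ z.im * U⟩
  map_zero' := by ext <;> simp
  map_one' := by ext <;> simp [QuadraticAlgebra.re_one, QuadraticAlgebra.im_one]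
  map_add' z w := by ext <;> simp; ring
  map_mul' z w := by
    ext
    · simp only [QuadraticAlgebra.re_mul, map_add, map_mul, h]
      ring
    · simp only [QuadraticAlgebra.im_mul, map_add, map_mul, map_zero]
      ring

/-- The homomorphism `ω ↦ 0`, when `τ f = 0`. -/
def res {D E : Type} [CommRing D] [CommRing E] (τ : D →+* E) {f : D} (h : τ f = 0) :
    QuadraticAlgebra D f 0 →+* E where
  toFun z := τ z.re
  map_zero' := by simp
  map_one' := by simp [QuadraticAlgebra.re_one]
  map_add' z w := by simp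
  map_mul' z w := by simp [h]

/-- The ring `O[x,y,w]/(w² - xy(y² - x²))`. -/
abbrev RR (O : Type) [CommRing O] : Type :=
  QuadraticAlgebra (MvPolynomial (Fin 2) O) (quar (X 0) (X 1)) 0

/-- A copy of a ring (used to put another algebra structure on it). -/
def Cop (R : Type) : Type := R

instance (R : Type) [CommRing R] : CommRing (Cop R) := inferInstanceAs (CommRing R)

lemma constantCoeff_quar (O : Type) [CommRing O] :
    constantCoeff (quar (X 0) (X 1) : MvPolynomial (Fin 2) O) = 0 := by
  simp [quar]

section main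

variable {O : Type} [CommRing O]

/-- The evaluation `x, y, w ↦ 0` composed with `q`. -/
noncomputable def ev0 {E : Type} [CommRing E] (q : O →+* E) : RR O →+* E :=
  res (q.comp constantCoeff) (by rw [RingHom.comp_apply, constantCoeff_quar, map_zero])

lemma ev0_apply {E : Type} [CommRing E] (q : O →+* E) (z : RR O) :
    ev0 q z = q (constantCoeff z.re) := rfl

instance ker_prime {E : Type} [CommRing E] [IsDomain E] (q : O →+* E) :
    (RingHom.ker (ev0 q)).IsPrime := RingHom.ker_isPrime _

variable [IsDomain O] [UniqueFactorizationMonoid O] [CharZero O]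

/-- The localization of `O[x,y,w]/(w² - xy(y² - x²))` at the prime `(ℓ, x, y, w)` is not a
splinter. -/
theorem not_isSplinter (h2 : IsUnit (2 : O)) (ℓ : ℕ) [Fact ℓ.Prime] (q : O →+* ZMod ℓ)
    (hq : ∀ r : O, q r = 0 ↔ (ℓ : O) ∣ r) :
    ¬ IsSplinter (Localization.AtPrime (RingHom.ker (ev0 q))) := by
  have hℓ : ℓ ≠ 0 := (Fact.out : ℓ.Prime).ne_zero
  obtain ⟨a, b, U, g, hU, α, β, γ, hmem⟩ := main_forms ℓ q h2 hq
  have hU0 : U ≠ 0 := by
    rintro rfl
    apply g.quar_ne_zero hℓ
    rw [hU]; ring
  have hσ : (sg a b : MvPolynomial (Fin 2) O →+* MvPolynomial (Fin 2) O) (quar (X 0) (X 1))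
      = quar (X 0) (X 1) * U ^ 2 := by
    rw [← hU]
    simp [quar]
  let φ : RR O →+* Cop (RR O) := twist (sg a b : MvPolynomial (Fin 2) O →+* _) U hσ
  have hφfin : φ.Finite := by
    have h1 : ((twist (sg a b : MvPolynomial (Fin 2) O →+* _) U hσ).comp
        (algebraMap (MvPolynomial (Fin 2) O) (RR O))) =
        (algebraMap (MvPolynomial (Fin 2) O) (RR O)).comp
          (sg a b : MvPolynomial (Fin 2) O →+* _) := by
      ext z <;> simp [twist]
    have h2 : ((algebraMap (MvPolynomial (Fin 2) O) (RR O)).comp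
          (sg a b : MvPolynomial (Fin 2) O →+* _)).Finite :=
      RingHom.Finite.comp (RingHom.finite_algebraMap.2 inferInstance) (sg_finite hℓ g)
    rw [← h1] at h2
    exact RingHom.Finite.of_comp_finite h2
  have hφinj : Function.Injective φ := by
    rw [injective_iff_map_eq_zero]
    intro z hz
    have hz' : twist (sg a b : MvPolynomial (Fin 2) O →+* _) U hσ z = 0 := hz
    have h1 := congrArg QuadraticAlgebra.re hz'
    have h2 := congrArg QuadraticAlgebra.im hz'
    simp only [twist, RingHom.coe_mk, MonoidHom.coe_mk, OneHom.coe_mk, QuadraticAlgebra.re_zero,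
      QuadraticAlgebra.im_zero, RingHom.coe_coe] at h1 h2
    have h2' := (mul_eq_zero.1 h2).resolve_right hU0
    have i := sg_injective hℓ g
    rw [map_eq_zero_iff _ i] at h1 h2'
    exact QuadraticAlgebra.ext h1 h2'
  let _ : Algebra (RR O) (Cop (RR O)) := φ.toAlgebra
  have : Module.Finite (RR O) (Cop (RR O)) := hφfin
  have hτ : (q.comp constantCoeff) (quar (X 0) (X 1) : MvPolynomial (Fin 2) O)
      = 0 * (1 : ZMod ℓ) ^ 2 := by
    rw [RingHom.comp_apply, constantCoeff_quar, map_zero, zero_mul]
  let π : RR O →+* QuadraticAlgebra (ZMod ℓ) 0 0 := twist (q.comp constantCoeff) 1 hτ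
  have hπ : ∀ z, π z = ⟨q (constantCoeff z.re), q (constantCoeff z.im)⟩ := by
    intro z
    apply QuadraticAlgebra.ext
    · rfl
    · show q (constantCoeff z.im) * 1 = _
      rw [mul_one]
  apply not_isSplinter_atPrime (R := RR O) (R' := Cop (RR O)) hφinj (RingHom.ker (ev0 q)) π ?_
    (⟨X 0, 0⟩ : RR O) (⟨X 1, 0⟩ : RR O) (⟨(ℓ : MvPolynomial (Fin 2) O), 0⟩ : RR O)
    (⟨0, 1⟩ : RR O) (⟨0, α⟩ : RR O) (⟨0, β⟩ : RR O) (⟨0, γ⟩ : RR O)
  · show (twist (sg a b : MvPolynomial (Fin 2) O →+* _) U hσ ⟨0, 1⟩ : RR O) =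
      ⟨0, α⟩ * (twist (sg a b : MvPolynomial (Fin 2) O →+* _) U hσ ⟨X 0, 0⟩ : RR O)
      + ⟨0, β⟩ * (twist (sg a b : MvPolynomial (Fin 2) O →+* _) U hσ ⟨X 1, 0⟩ : RR O)
      + ⟨0, γ⟩ * (twist (sg a b : MvPolynomial (Fin 2) O →+* _) U hσ ⟨(ℓ : MvPolynomial (Fin 2) O), 0⟩ : RR O)
    apply QuadraticAlgebra.ext
    · simp [twist]
    · simp [twist]
      rw [hmem]; ring
  · rw [hπ]; simp; rfl
  · rw [hπ]; simp; rfl
  · rw [hπ]
    have : (constantCoeff (ℓ : MvPolynomial (Fin 2) O)) = (ℓ : O) := map_natCast _ _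
    simp only [this]
    simp; rfl
  · rw [hπ]
    intro h
    have := congrArg QuadraticAlgebra.im h
    simp at this
  · intro g hg
    rw [QuadraticAlgebra.isUnit_iff_norm_isUnit, hπ, QuadraticAlgebra.norm_def]
    rw [RingHom.mem_ker, ev0_apply] at hg
    simp only [zero_mul, sub_zero, add_zero]
    exact (isUnit_iff_ne_zero.2 hg).mul (isUnit_iff_ne_zero.2 hg)

end main

end Pool.Agent.helper73.Spl
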