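import Pool.Agent.helper73.Spl.Basic

/-!
# The multiplication-by-`n` forms on the curve `w² = xy(y² - x²)`
-/

set_option linter.unusedSectionVars false

namespace Pool.Agent.helper73.Spl

open MvPolynomial

variable (O : Type) [CommRing O]

/-- the first variable -/
noncomputable abbrev vx : MvPolynomial (Fin 2) O := X 0
/-- the second variable -/
noncomputable abbrev vy : MvPolynomial (Fin 2) O := X 1

/-- restriction to `x = 0` -/
noncomputable def ev : MvPolynomial (Fin 2) O →ₐ[O] Polynomial O :=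
  aeval ![0, Polynomial.X]

@[simp] lemma ev_x : ev O (X 0) = 0 := by simp [ev]
@[simp] lemma ev_y : ev O (X 1) = Polynomial.X := by simp [ev]

variable {O}

/-- the binary quartic form -/
def quar {A : Type*} [CommRing A] (x y : A) : A := x * y * (y ^ 2 - x ^ 2)

/-- properties of the pair of forms of degree `n ^ 2` -/
structure Good (n : ℕ) (a b : MvPolynomial (Fin 2) O) : Prop where
  ha : a.IsHomogeneous (n ^ 2)
  hb : b.IsHomogeneous (n ^ 2)
  rx : (X 0 : MvPolynomial (Fin 2) O) ∈ (Ideal.span {a, b}).radical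
  ry : (X 1 : MvPolynomial (Fin 2) O) ∈ (Ideal.span {a, b}).radical
  eva : ev O a = 0
  evb : ev O b = Polynomial.X ^ (n ^ 2)
  evd : Polynomial.X * ev O (pderiv 0 a) = (n ^ 2 : Polynomial O) * Polynomial.X ^ (n ^ 2)

lemma dvd_pow_of_mem_radical {M : Type*} [CommRing M] {a b q z : M}
    (hz : z ∈ (Ideal.span {a, b}).radical) (ha : q ∣ a) (hb : q ∣ b) : ∃ k : ℕ, q ∣ z ^ k := by
  obtain ⟨k, hk⟩ := hz
  refine ⟨k, ?_⟩
  have h1 : Ideal.span {a, b} ≤ Ideal.span {q} := by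
    rw [Ideal.span_le]
    rintro w hw
    rcases hw with rfl | hw
    · exact Ideal.mem_span_singleton.2 ha
    · rw [Set.mem_singleton_iff] at hw
      subst hw
      exact Ideal.mem_span_singleton.2 hb
  exact Ideal.mem_span_singleton.1 (h1 hk)

section dom

variable [IsDomain O]

lemma X0_not_dvd_X1 : ¬ (X 0 : MvPolynomial (Fin 2) O) ∣ X 1 := by
  rintro ⟨c, hc⟩
  have := congrArg (ev O) hc
  simp at this

lemma X1_not_dvd_X0 : ¬ (X 1 : MvPolynomial (Fin 2) O) ∣ X 0 := by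
  rintro ⟨c, hc⟩
  have := congrArg (aeval (R := O) ![Polynomial.X, (0 : Polynomial O)]) hc
  simp at this

variable [UniqueFactorizationMonoid O]

lemma relprime_XY : IsRelPrime (X 0 : MvPolynomial (Fin 2) O) (X 1) := by
  have h0 : Prime (X 0 : MvPolynomial (Fin 2) O) := X_prime
  exact (h0.irreducible.isRelPrime_iff_not_dvd).2 X0_not_dvd_X1

lemma relprime_of_radical {a b : MvPolynomial (Fin 2) O}
    (rx : (X 0 : MvPolynomial (Fin 2) O) ∈ (Ideal.span {a, b}).radical)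
    (ry : (X 1 : MvPolynomial (Fin 2) O) ∈ (Ideal.span {a, b}).radical) : IsRelPrime a b := by
  intro q ha hb
  obtain ⟨k, hk⟩ := dvd_pow_of_mem_radical rx ha hb
  obtain ⟨m, hm⟩ := dvd_pow_of_mem_radical ry ha hb
  exact ((relprime_XY (O := O)).pow_left (m := k)).pow_right (n := m) hk hm

lemma Good.relprime {n : ℕ} {a b : MvPolynomial (Fin 2) O} (g : Good n a b) : IsRelPrime a b :=
  relprime_of_radical g.rx g.ry

end dom

lemma Good.b_ne_zero [Nontrivial O] {n : ℕ} {a b : MvPolynomial (Fin 2) O} (g : Good n a b) :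
    b ≠ 0 := by
  rintro rfl
  have := g.evb
  rw [map_zero] at this
  exact (Polynomial.monic_X_pow (n ^ 2)).ne_zero this.symm

/-- radical membership passes through the quadratic relation -/
lemma radical_step {M : Type*} [CommRing M] (h2 : IsUnit (2 : M)) {x y a b a₁ b₁ a₂ b₂ : M}
    (rx : x ∈ (Ideal.span {a, b}).radical) (ry : y ∈ (Ideal.span {a, b}).radical)
    (hA : b₁ * b₂ = (y * b + x * a) ^ 2) (hC : a₁ * a₂ = (y * a - x * b) ^ 2)
    (hB : a₁ * b₂ + a₂ * b₁ = 2 * (y * a + x * b) * (y * b - x * a)) :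
    x ∈ (Ideal.span {a₂, b₂}).radical ∧ y ∈ (Ideal.span {a₂, b₂}).radical := by
  set J : Ideal M := (Ideal.span {a₂, b₂}).radical with hJ
  have ha₂ : a₂ ∈ J := Ideal.le_radical (Ideal.subset_span (by simp))
  have hb₂ : b₂ ∈ J := Ideal.le_radical (Ideal.subset_span (by simp))
  have hrad : J.IsRadical := Ideal.radical_isRadical _
  have hpow : ∀ z : M, ∀ n : ℕ, z ^ n ∈ J → z ∈ J := fun z n h => hrad ⟨n, h⟩
  have hp : y * b + x * a ∈ J := hpow _ 2 (by rw [← hA]; exact J.mul_mem_left _ hb₂)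
  have hq : y * a - x * b ∈ J := hpow _ 2 (by rw [← hC]; exact J.mul_mem_left _ ha₂)
  have hBm : 2 * (y * a + x * b) * (y * b - x * a) ∈ J := by
    rw [← hB]; exact J.add_mem (J.mul_mem_left _ hb₂) (J.mul_mem_right _ ha₂)
  set p := y * b + x * a with hpdef
  set q := y * a - x * b with hqdef
  set B := 2 * (y * a + x * b) * (y * b - x * a) with hBdef
  have lin : ∀ c1 c2 c3 : M, c1 * p + c2 * q + c3 * B ∈ J := fun c1 c2 c3 =>
    J.add_mem (J.add_mem (J.mul_mem_left _ hp) (J.mul_mem_left _ hq)) (J.mul_mem_left _ hBm)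
  have h8 : IsUnit (8 : M) := by
    have : (8 : M) = 2 ^ 3 := by norm_num
    rw [this]; exact h2.pow 3
  have u8 : ∀ z : M, 8 * z ∈ J → z ∈ J := fun z hz => (J.unit_mul_mem_iff_mem h8).1 hz
  -- x a ∈ J
  have hxa : x * a ∈ J := by
    apply hpow _ 3
    apply u8
    have h := lin (8 * x ^ 2 * a - y * (2 * q + 4 * x * b)) (4 * x * y * a) y
    have e : 8 * (x ^ 3 * a ^ 2) = (8 * x ^ 2 * a - y * (2 * q + 4 * x * b)) * p
        + (4 * x * y * a) * q + y * B := by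
      rw [hBdef, hpdef, hqdef]; ring
    have h' : 8 * (x * a) ^ 3 = a * (8 * (x ^ 3 * a ^ 2)) := by ring
    rw [h', e]; exact J.mul_mem_left _ h
  have hxb : x * b ∈ J := by
    apply hpow _ 3
    apply u8
    have h := lin (y * (2 * q + 4 * x * b)) (-(4 * x * y * a) - 8 * x ^ 2 * b) (-y)
    have e : 8 * (x ^ 3 * b ^ 2) = (y * (2 * q + 4 * x * b)) * p
        + (-(4 * x * y * a) - 8 * x ^ 2 * b) * q + (-y) * B := by
      rw [hBdef, hpdef, hqdef]; ring
    have h' : 8 * (x * b) ^ 3 = b * (8 * (x ^ 3 * b ^ 2)) := by ring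
    rw [h', e]; exact J.mul_mem_left _ h
  have hya : y * a ∈ J := by
    apply hpow _ 3
    apply u8
    have h := lin (x * (4 * y * a - 2 * q)) (8 * y ^ 2 * a + 4 * x * y * b) x
    have e : 8 * (y ^ 3 * a ^ 2) = (x * (4 * y * a - 2 * q)) * p
        + (8 * y ^ 2 * a + 4 * x * y * b) * q + x * B := by
      rw [hBdef, hpdef, hqdef]; ring
    have h' : 8 * (y * a) ^ 3 = a * (8 * (y ^ 3 * a ^ 2)) := by ring
    rw [h', e]; exact J.mul_mem_left _ h
  have hyb : y * b ∈ J := by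
    apply hpow _ 3
    apply u8
    have h := lin (8 * y ^ 2 * b - x * (4 * y * a - 2 * q)) (-(4 * x * y * b)) (-x)
    have e : 8 * (y ^ 3 * b ^ 2) = (8 * y ^ 2 * b - x * (4 * y * a - 2 * q)) * p
        + (-(4 * x * y * b)) * q + (-x) * B := by
      rw [hBdef, hpdef, hqdef]; ring
    have h' : 8 * (y * b) ^ 3 = b * (8 * (y ^ 3 * b ^ 2)) := by ring
    rw [h', e]; exact J.mul_mem_left _ h
  constructor
  · obtain ⟨k, hk⟩ := rx
    obtain ⟨α, β, hαβ⟩ := Ideal.mem_span_pair.1 hk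
    apply hpow _ (k + 1)
    rw [pow_succ, ← hαβ]
    have : (α * a + β * b) * x = α * (x * a) + β * (x * b) := by ring
    rw [this]
    exact J.add_mem (J.mul_mem_left _ hxa) (J.mul_mem_left _ hxb)
  · obtain ⟨k, hk⟩ := ry
    obtain ⟨α, β, hαβ⟩ := Ideal.mem_span_pair.1 hk
    apply hpow _ (k + 1)
    rw [pow_succ, ← hαβ]
    have : (α * a + β * b) * y = α * (y * a) + β * (y * b) := by ring
    rw [this]
    exact J.add_mem (J.mul_mem_left _ hya) (J.mul_mem_left _ hyb)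


section step

variable [IsDomain O] [UniqueFactorizationMonoid O]

/-- One step of the recursion. -/
theorem step (h2 : IsUnit (2 : O)) {n : ℕ} {a₁ b₁ a b : MvPolynomial (Fin 2) O}
    (g₁ : Good n a₁ b₁) (g : Good (n + 1) a b)
    (hG : (X 1 * b + X 0 * a) ^ 2 * a₁ ^ 2
      - 2 * (X 1 * a + X 0 * b) * (X 1 * b - X 0 * a) * a₁ * b₁
      + (X 1 * a - X 0 * b) ^ 2 * b₁ ^ 2 = 0) :
    ∃ a₂ b₂, Good (n + 2) a₂ b₂ ∧ b₁ * b₂ = (X 1 * b + X 0 * a) ^ 2 ∧
      a₁ * a₂ = (X 1 * a - X 0 * b) ^ 2 ∧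
      a₁ * b₂ + a₂ * b₁ = 2 * (X 1 * a + X 0 * b) * (X 1 * b - X 0 * a) := by
  have hb₁ : b₁ ≠ 0 := g₁.b_ne_zero
  have hrel : IsRelPrime b₁ a₁ := g₁.relprime.symm
  have hrel2 : IsRelPrime b₁ (a₁ ^ 2) := hrel.pow_right
  have hd : b₁ ∣ (X 1 * b + X 0 * a) ^ 2 * a₁ ^ 2 :=
    ⟨2 * (X 1 * a + X 0 * b) * (X 1 * b - X 0 * a) * a₁ - (X 1 * a - X 0 * b) ^ 2 * b₁, by
      linear_combination hG⟩
  obtain ⟨b₂, hb₂⟩ := hrel2.dvd_of_dvd_mul_right hd
  have e1 : b₂ * a₁ ^ 2 - 2 * (X 1 * a + X 0 * b) * (X 1 * b - X 0 * a) * a₁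
      + (X 1 * a - X 0 * b) ^ 2 * b₁ = 0 := by
    apply mul_left_cancel₀ hb₁
    rw [mul_zero, ← hG, hb₂]; ring
  have hd2 : b₁ ∣ a₁ * (2 * (X 1 * a + X 0 * b) * (X 1 * b - X 0 * a) - a₁ * b₂) :=
    ⟨(X 1 * a - X 0 * b) ^ 2, by linear_combination -e1⟩
  obtain ⟨a₂, ha₂⟩ := hrel.dvd_of_dvd_mul_left hd2
  have hA : b₁ * b₂ = (X 1 * b + X 0 * a) ^ 2 := hb₂.symm
  have hB : a₁ * b₂ + a₂ * b₁ = 2 * (X 1 * a + X 0 * b) * (X 1 * b - X 0 * a) := by
    linear_combination -ha₂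
  have hC : a₁ * a₂ = (X 1 * a - X 0 * b) ^ 2 := by
    apply mul_left_cancel₀ hb₁
    linear_combination (-a₁) * ha₂ - e1
  refine ⟨a₂, b₂, ?_, hA, hC, hB⟩
  have hC2 : (C 2 : MvPolynomial (Fin 2) O) = 2 := map_ofNat C 2
  have hX0 : (X 0 : MvPolynomial (Fin 2) O).IsHomogeneous 1 := isHomogeneous_X O 0
  have hX1 : (X 1 : MvPolynomial (Fin 2) O).IsHomogeneous 1 := isHomogeneous_X O 1
  have hh1 : (X 1 * b + X 0 * a).IsHomogeneous (1 + (n + 1) ^ 2) := (hX1.mul g.hb).add (hX0.mul g.ha)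
  have hh2 : (X 1 * b - X 0 * a).IsHomogeneous (1 + (n + 1) ^ 2) := (hX1.mul g.hb).sub (hX0.mul g.ha)
  have hh3 : (X 1 * a + X 0 * b).IsHomogeneous (1 + (n + 1) ^ 2) := (hX1.mul g.ha).add (hX0.mul g.hb)
  have hb₂h : b₂.IsHomogeneous ((n + 2) ^ 2) := by
    apply homogeneous_of_mul g₁.hb _ hb₁
    rw [hA]
    convert hh1.pow 2 using 1; ring
  have ha₂h : a₂.IsHomogeneous ((n + 2) ^ 2) := by
    apply homogeneous_of_mul g₁.hb _ hb₁
    rw [← ha₂]
    apply IsHomogeneous.sub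
    · have h2' : (2 : MvPolynomial (Fin 2) O).IsHomogeneous 0 := by
        rw [← hC2]; exact isHomogeneous_C (Fin 2) (2 : O)
      convert (h2'.mul hh3).mul hh2 using 1; ring
    · exact g₁.ha.mul hb₂h
  have hevb : ev O b₂ = Polynomial.X ^ ((n + 2) ^ 2) := by
    have := congrArg (ev O) hA
    simp only [map_mul, map_pow, map_add, ev_x, ev_y, g₁.evb, g.evb, zero_mul, add_zero] at this
    apply mul_left_cancel₀ (pow_ne_zero (n ^ 2) (Polynomial.X_ne_zero (R := O)))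
    rw [this]; ring
  have heva : ev O a₂ = 0 := by
    have := congrArg (ev O) hB
    simp only [map_mul, map_add, map_sub, ev_x, ev_y, g₁.evb, g.evb, g₁.eva, g.eva, zero_mul,
      mul_zero, add_zero, zero_add, map_ofNat] at this
    rcases mul_eq_zero.1 this with h | h
    · exact h
    · exact absurd h (pow_ne_zero _ Polynomial.X_ne_zero)
  have hevd : Polynomial.X * ev O (pderiv 0 a₂)
      = ((n + 2 : ℕ) ^ 2 : Polynomial O) * Polynomial.X ^ ((n + 2) ^ 2) := by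
    have h := congrArg (fun z => ev O (pderiv 0 z)) hB
    have h01 : pderiv 0 (X 1 : MvPolynomial (Fin 2) O) = 0 := pderiv_X_of_ne (by decide)
    have h00 : pderiv 0 (X 0 : MvPolynomial (Fin 2) O) = 1 := pderiv_X_self 0
    have h22 : pderiv 0 (2 : MvPolynomial (Fin 2) O) = 0 := by
      rw [← hC2]; exact pderiv_C
    simp only [map_add, map_sub, Derivation.leibniz, smul_eq_mul, h01, h00, h22, map_mul,
      ev_x, ev_y, g₁.evb, g.evb, g₁.eva, g.eva, heva, hevb, zero_mul,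
      mul_zero, add_zero, zero_add, map_ofNat, mul_one, sub_zero] at h
    have h1 := g₁.evd
    have h2' := g.evd
    push_cast at h1 h2' ⊢
    apply mul_left_cancel₀ (pow_ne_zero (n ^ 2) (Polynomial.X_ne_zero (R := O)))
    have e2 : (Polynomial.X : Polynomial O) ^ (n ^ 2) * Polynomial.X ^ ((n + 2) ^ 2)
      = Polynomial.X ^ 2 * (Polynomial.X ^ ((n + 1) ^ 2)) ^ 2 := by ring
    generalize (Polynomial.X : Polynomial O) ^ ((n + 2) ^ 2) = P2 at *
    generalize (Polynomial.X : Polynomial O) ^ ((n + 1) ^ 2) = P1 at *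
    generalize (Polynomial.X : Polynomial O) ^ (n ^ 2) = P0 at *
    linear_combination Polynomial.X * h - P2 * h1 + 2 * Polynomial.X ^ 2 * P1 * h2' + (-2 * ((n:Polynomial O) + 1)^2 - 2) * e2
  obtain ⟨rx, ry⟩ := radical_step (h2.map (C : O →+* MvPolynomial (Fin 2) O)) g.rx g.ry hA hC hB
  exact ⟨ha₂h, hb₂h, rx, ry, heva, hevb, hevd⟩

end step

section chain

variable [IsDomain O] [UniqueFactorizationMonoid O]

lemma isUnit_eight (h2 : IsUnit (2 : O)) : IsUnit (8 : MvPolynomial (Fin 2) O) := by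
  have h := (h2.map (C : O →+* MvPolynomial (Fin 2) O)).pow 3
  have h8 : (C 2 : MvPolynomial (Fin 2) O) ^ 3 = 8 := by
    rw [map_ofNat C 2]; norm_num
  rwa [h8] at h

lemma pderiv0_quar (a b : MvPolynomial (Fin 2) O) (i : Fin 2) :
    pderiv i (quar a b) = (b ^ 3 - 3 * a ^ 2 * b) * pderiv i a
      + (3 * a * b ^ 2 - a ^ 3) * pderiv i b := by
  simp only [quar, map_sub, Derivation.leibniz, smul_eq_mul, Derivation.leibniz_pow, nsmul_eq_mul]
  push_cast
  ring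

/-- `f = xy(y² - x²)` is squarefree when `2` is a unit. -/
lemma squarefree_quar (h2 : IsUnit (2 : O)) :
    Squarefree (quar (X 0) (X 1) : MvPolynomial (Fin 2) O) := by
  intro q hq
  obtain ⟨c, hc⟩ := hq
  have h00 : pderiv 0 (X 0 : MvPolynomial (Fin 2) O) = 1 := pderiv_X_self 0
  have h01 : pderiv 0 (X 1 : MvPolynomial (Fin 2) O) = 0 := pderiv_X_of_ne (by decide)
  have h10 : pderiv 1 (X 0 : MvPolynomial (Fin 2) O) = 0 := pderiv_X_of_ne (by decide)
  have h11 : pderiv 1 (X 1 : MvPolynomial (Fin 2) O) = 1 := pderiv_X_self 1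
  have hd : ∀ i, q ∣ pderiv i (quar (X 0) (X 1) : MvPolynomial (Fin 2) O) := by
    intro i
    rw [hc]
    simp only [Derivation.leibniz, smul_eq_mul]
    exact ⟨q * pderiv i c + c * (pderiv i q + pderiv i q), by ring⟩
  have hd0 := hd 0
  have hd1 := hd 1
  rw [pderiv0_quar, h00, h01] at hd0
  rw [pderiv0_quar, h10, h11] at hd1
  have hu := isUnit_eight h2
  have hx : q ∣ (X 0 : MvPolynomial (Fin 2) O) ^ 5 := by
    rw [← hu.dvd_mul_left]
    convert dvd_sub (hd1.mul_left (3 * X 1 ^ 2 - 8 * X 0 ^ 2)) (hd0.mul_left (9 * X 0 * X 1)) using 1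
    ring
  have hy : q ∣ (X 1 : MvPolynomial (Fin 2) O) ^ 5 := by
    rw [← hu.dvd_mul_left]
    convert dvd_add (hd0.mul_left (-3 * X 0 ^ 2 + 8 * X 1 ^ 2)) (hd1.mul_left (9 * X 0 * X 1)) using 1
    ring
  exact ((relprime_XY (O := O)).pow_left (m := 5)).pow_right (n := 5) hx hy

/-- Two consecutive pairs of forms. -/
structure Chain (n : ℕ) (a₁ b₁ a b : MvPolynomial (Fin 2) O) : Prop where
  g₁ : Good n a₁ b₁
  g : Good (n + 1) a b
  hG : (X 1 * b + X 0 * a) ^ 2 * a₁ ^ 2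
      - 2 * (X 1 * a + X 0 * b) * (X 1 * b - X 0 * a) * a₁ * b₁
      + (X 1 * a - X 0 * b) ^ 2 * b₁ ^ 2 = 0
  hU : ∃ U, quar a b = quar (X 0) (X 1) * U ^ 2
  hU₁ : (a₁ = 0 ∧ b₁ = 1 ∧ a = X 0 ∧ b = X 1) ∨
    (n ≠ 0 ∧ ∃ U, quar a₁ b₁ = quar (X 0) (X 1) * U ^ 2)

lemma Good.quar_ne_zero [CharZero O] {n : ℕ} (hn : n ≠ 0) {a b : MvPolynomial (Fin 2) O}
    (g : Good n a b) : quar a b ≠ 0 := by
  have ha : a ≠ 0 := by
    rintro rfl
    have h := g.evd
    rw [map_zero, map_zero, mul_zero] at h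
    rcases mul_eq_zero.1 h.symm with h | h
    · have h' : ((n ^ 2 : ℕ) : Polynomial O) = 0 := by push_cast; exact h
      rw [Nat.cast_eq_zero] at h'
      exact hn (by simpa using h')
    · exact pow_ne_zero _ Polynomial.X_ne_zero h
  have hb := g.b_ne_zero
  have hc : b ^ 2 - a ^ 2 ≠ 0 := by
    intro h
    have := congrArg (ev O) h
    rw [map_sub, map_pow, map_pow, g.eva, g.evb] at this
    simp at this
  exact mul_ne_zero (mul_ne_zero ha hb) hc

theorem Chain.next [CharZero O] (h2 : IsUnit (2 : O)) {n : ℕ}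
    {a₁ b₁ a b : MvPolynomial (Fin 2) O} (c : Chain n a₁ b₁ a b) :
    ∃ a₂ b₂, Chain (n + 1) a b a₂ b₂ := by
  obtain ⟨a₂, b₂, g₂, hA, hC, hB⟩ := step h2 c.g₁ c.g c.hG
  refine ⟨a₂, b₂, c.g, g₂, ?_, ?_, Or.inr ⟨by omega, c.hU⟩⟩
  · linear_combination (-a₂ ^ 2) * hA + a₂ * b₂ * hB - b₂ ^ 2 * hC
  · rcases c.hU₁ with ⟨rfl, rfl, rfl, rfl⟩ | ⟨hn, U₁, hU₁⟩
    · have hb₂ : b₂ = (X 1 ^ 2 + X 0 ^ 2) ^ 2 := by linear_combination hA
      have ha₂ : a₂ = 4 * X 0 * X 1 * (X 1 ^ 2 - X 0 ^ 2) := by linear_combination hB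
      refine ⟨2 * (X 1 ^ 2 + X 0 ^ 2) * (X 1 ^ 2 - 2 * X 0 * X 1 - X 0 ^ 2) *
        (X 1 ^ 2 + 2 * X 0 * X 1 - X 0 ^ 2), ?_⟩
      rw [hb₂, ha₂]
      simp only [quar]
      ring
    · set f : MvPolynomial (Fin 2) O := quar (X 0) (X 1) with hf
      have hsq : Squarefree f := squarefree_quar h2
      have hf0 : f ≠ 0 := hsq.ne_zero
      have hM : quar a₂ b₂ * quar a₁ b₁ = ((X 1 * b + X 0 * a) * (X 1 * a - X 0 * b) *
          ((a ^ 2 - b ^ 2) * (X 1 ^ 2 - X 0 ^ 2) + 4 * a * b * X 0 * X 1)) ^ 2 := by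
        have e1 : quar a₂ b₂ * quar a₁ b₁ = (a₁ * a₂) * (b₁ * b₂) *
            ((b₁ * b₂ + a₁ * a₂) ^ 2 - (a₁ * b₂ + a₂ * b₁) ^ 2) := by
          simp only [quar]; ring
        rw [e1, hA, hC, hB]; ring
      set M := (X 1 * b + X 0 * a) * (X 1 * a - X 0 * b) *
          ((a ^ 2 - b ^ 2) * (X 1 ^ 2 - X 0 ^ 2) + 4 * a * b * X 0 * X 1) with hMdef
      rw [hU₁] at hM
      have h1 : f ∣ M ^ 2 := ⟨quar a₂ b₂ * U₁ ^ 2, by rw [← hM]; ring⟩
      rw [hsq.dvd_pow_iff_dvd two_ne_zero] at h1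
      obtain ⟨N, hN⟩ := h1
      have h3 : quar a₂ b₂ * U₁ ^ 2 = f * N ^ 2 := by
        apply mul_left_cancel₀ hf0
        rw [hN] at hM
        linear_combination hM
      have h4 : U₁ ∣ N := by
        apply sq_dvd_of_squarefree hsq
        exact ⟨quar a₂ b₂, by linear_combination -h3⟩
      obtain ⟨V, rfl⟩ := h4
      have hU₁0 : U₁ ≠ 0 := by
        rintro rfl
        apply c.g₁.quar_ne_zero hn
        rw [hU₁]; ring
      refine ⟨V, ?_⟩
      apply mul_left_cancel₀ (pow_ne_zero 2 hU₁0)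
      linear_combination h3

theorem exists_chain [CharZero O] (h2 : IsUnit (2 : O)) (n : ℕ) :
    ∃ a₁ b₁ a b : MvPolynomial (Fin 2) O, Chain n a₁ b₁ a b := by
  induction n with
  | zero =>
    refine ⟨0, 1, X 0, X 1, ⟨?_, ?_, ?_, ?_, ?_⟩⟩
    · refine ⟨isHomogeneous_zero _ _ _, ?_, ?_, ?_, ?_, ?_, ?_⟩
      · simpa using isHomogeneous_one (Fin 2) O
      · rw [show Ideal.span {(0 : MvPolynomial (Fin 2) O), 1} = ⊤ from
          (Ideal.eq_top_iff_one _).2 (Ideal.subset_span (by simp)), Ideal.radical_top]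
        trivial
      · rw [show Ideal.span {(0 : MvPolynomial (Fin 2) O), 1} = ⊤ from
          (Ideal.eq_top_iff_one _).2 (Ideal.subset_span (by simp)), Ideal.radical_top]
        trivial
      · simp
      · simp
      · simp
    · refine ⟨?_, ?_, ?_, ?_, ?_, ?_, ?_⟩
      · simpa using isHomogeneous_X O (0 : Fin 2)
      · simpa using isHomogeneous_X O (1 : Fin 2)
      · exact Ideal.le_radical (Ideal.subset_span (by simp))
      · exact Ideal.le_radical (Ideal.subset_span (by simp))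
      · simp
      · simp
      · simp
    · ring
    · exact ⟨1, by ring⟩
    · left; simp
  | succ n ih =>
    obtain ⟨a₁, b₁, a, b, c⟩ := ih
    obtain ⟨a₂, b₂, c'⟩ := c.next h2
    exact ⟨a, b, a₂, b₂, c'⟩

/-- The forms of degree `n ^ 2` defining multiplication by `n`. -/
theorem exists_good [CharZero O] (h2 : IsUnit (2 : O)) (n : ℕ) (hn : n ≠ 0) :
    ∃ a b U : MvPolynomial (Fin 2) O, Good n a b ∧ quar a b = quar (X 0) (X 1) * U ^ 2 := by
  obtain ⟨m, rfl⟩ := Nat.exists_eq_succ_of_ne_zero hn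
  obtain ⟨a₁, b₁, a, b, c⟩ := exists_chain (O := O) h2 m
  obtain ⟨U, hU⟩ := c.hU
  exact ⟨a, b, U, c.g, hU⟩

end chain

end Pool.Agent.helper73.Spl
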