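import Pool.Agent.helper73.Spl.Seq

/-!
# The Wronskian of the multiplication-by-`n` forms, and their reduction modulo `ℓ = n`
-/

set_option linter.unusedSectionVars false

namespace Pool.Agent.helper73.Spl

open MvPolynomial

variable {O : Type} [CommRing O] [IsDomain O] [UniqueFactorizationMonoid O]

/-- the Wronskian-type determinant -/
noncomputable def wr (i : Fin 2) (a b : MvPolynomial (Fin 2) O) : MvPolynomial (Fin 2) O :=
  b * pderiv i a - a * pderiv i b

lemma U_dvd_wr (h2 : IsUnit (2 : O)) {n : ℕ} {a b U : MvPolynomial (Fin 2) O}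
    (g : Good n a b) (ha : a ≠ 0) (hU : quar a b = quar (X 0) (X 1) * U ^ 2) (i : Fin 2) :
    U ∣ wr i a b := by
  have h1 := congrArg (pderiv i) hU
  rw [pderiv0_quar] at h1
  simp only [Derivation.leibniz, smul_eq_mul, Derivation.leibniz_pow, nsmul_eq_mul] at h1
  have h2' : U ∣ (b ^ 3 - 3 * a ^ 2 * b) * pderiv i a + (3 * a * b ^ 2 - a ^ 3) * pderiv i b := by
    rw [h1]
    push_cast
    exact ⟨quar (X 0) (X 1) * (2 * pderiv i U) + U * pderiv i (quar (X 0) (X 1)), by ring⟩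
  have h3 : U ∣ a * (b ^ 3 - 3 * a ^ 2 * b) + b * (3 * a * b ^ 2 - a ^ 3) := by
    have : a * (b ^ 3 - 3 * a ^ 2 * b) + b * (3 * a * b ^ 2 - a ^ 3) = 4 * quar a b := by
      simp only [quar]; ring
    rw [this, hU]
    exact ⟨4 * (quar (X 0) (X 1)) * U, by ring⟩
  have h4 : U ∣ (b ^ 3 - 3 * a ^ 2 * b) * wr i a b := by
    convert dvd_sub (h2'.mul_left b) (h3.mul_left (pderiv i b)) using 1
    simp only [wr]; ring
  have h5 : U ∣ (3 * a * b ^ 2 - a ^ 3) * wr i a b := by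
    convert dvd_sub (h3.mul_left (pderiv i a)) (h2'.mul_left a) using 1
    simp only [wr]; ring
  have hu := isUnit_eight h2
  have h6 : U ∣ a ^ 5 * wr i a b := by
    rw [← hu.dvd_mul_left]
    convert dvd_sub (h5.mul_left (3 * b ^ 2 - 8 * a ^ 2)) (h4.mul_left (9 * a * b)) using 1
    ring
  have h7 : U ∣ b ^ 5 * wr i a b := by
    rw [← hu.dvd_mul_left]
    convert dvd_add (h4.mul_left (-3 * a ^ 2 + 8 * b ^ 2)) (h5.mul_left (9 * a * b)) using 1
    ring
  exact dvd_of_two ((g.relprime.pow_left (m := 5)).pow_right (n := 5)) (pow_ne_zero 5 ha) h6 h7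

lemma euler2 {n : ℕ} {a : MvPolynomial (Fin 2) O} (ha : a.IsHomogeneous n) :
    X 0 * pderiv 0 a + X 1 * pderiv 1 a = (n : MvPolynomial (Fin 2) O) * a := by
  have := ha.sum_X_mul_pderiv
  rw [Fin.sum_univ_two, nsmul_eq_mul] at this
  exact this

/-- The Wronskian is `± n U`. -/
theorem wr_eq [CharZero O] (h2 : IsUnit (2 : O)) {n : ℕ} (hn : n ≠ 0)
    {a b U : MvPolynomial (Fin 2) O}
    (g : Good n a b) (hU : quar a b = quar (X 0) (X 1) * U ^ 2) :
    ∃ V : MvPolynomial (Fin 2) O, quar a b = quar (X 0) (X 1) * V ^ 2 ∧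
      wr 0 a b = (n : MvPolynomial (Fin 2) O) * X 1 * V ∧
      wr 1 a b = - ((n : MvPolynomial (Fin 2) O) * X 0 * V) := by
  have hq0 := g.quar_ne_zero hn
  have ha0 : a ≠ 0 := by
    rintro rfl; exact hq0 (by simp [quar])
  have hU0 : U ≠ 0 := by
    rintro rfl; exact hq0 (by rw [hU]; ring)
  have hx0 : (X 0 : MvPolynomial (Fin 2) O) ≠ 0 := X_ne_zero 0
  have hx1 : (X 1 : MvPolynomial (Fin 2) O) ≠ 0 := X_ne_zero 1
  have hE : X 0 * wr 0 a b + X 1 * wr 1 a b = 0 := by
    simp only [wr]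
    linear_combination b * euler2 g.ha - a * euler2 g.hb
  have hd : (X 1 : MvPolynomial (Fin 2) O) ∣ X 0 * wr 0 a b :=
    ⟨- wr 1 a b, by linear_combination hE⟩
  obtain ⟨W, hW⟩ := (relprime_XY (O := O)).symm.dvd_of_dvd_mul_left hd
  have hW1 : wr 1 a b = - (X 0 * W) := by
    apply mul_left_cancel₀ hx1
    linear_combination hE - X 0 * hW
  have hUW : U ∣ W := by
    apply dvd_of_two (relprime_XY (O := O)) hx0
    · have := U_dvd_wr h2 g ha0 hU 1
      rw [hW1, dvd_neg] at this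
      exact this
    · have := U_dvd_wr h2 g ha0 hU 0
      rw [hW] at this
      exact this
  obtain ⟨c, hc⟩ := hUW
  have hpos : 1 ≤ n ^ 2 := Nat.one_le_iff_ne_zero.2 (pow_ne_zero 2 hn)
  -- degrees
  have hdeg : c.totalDegree = 0 := by
    by_cases hc0 : c = 0
    · rw [hc0, totalDegree_zero]
    have hWne : W ≠ 0 := by rw [hc]; exact mul_ne_zero hU0 hc0
    have hw0 : (wr 0 a b).IsHomogeneous (n ^ 2 + (n ^ 2 - 1)) :=
      (g.hb.mul g.ha.pderiv).sub (g.ha.mul g.hb.pderiv)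
    have h1 : (wr 0 a b).totalDegree = n ^ 2 + (n ^ 2 - 1) :=
      hw0.totalDegree (by rw [hW]; exact mul_ne_zero hx1 hWne)
    rw [hW, hc, totalDegree_mul_of_isDomain hx1 (mul_ne_zero hU0 hc0),
      totalDegree_mul_of_isDomain hU0 hc0, totalDegree_X] at h1
    have hqh : (quar a b).IsHomogeneous (n ^ 2 + n ^ 2 + n ^ 2 * 2) :=
      (g.ha.mul g.hb).mul ((g.hb.pow 2).sub (g.ha.pow 2))
    have hXh : (quar (X 0) (X 1) : MvPolynomial (Fin 2) O).IsHomogeneous (1 + 1 + 1 * 2) :=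
      ((isHomogeneous_X O 0).mul (isHomogeneous_X O 1)).mul
        (((isHomogeneous_X O 1).pow 2).sub ((isHomogeneous_X O 0).pow 2))
    have h3 := hqh.totalDegree hq0
    have hX0 : (quar (X 0) (X 1) : MvPolynomial (Fin 2) O) ≠ 0 := (squarefree_quar h2).ne_zero
    have h4 := hXh.totalDegree hX0
    rw [hU, totalDegree_mul_of_isDomain hX0 (pow_ne_zero 2 hU0), sq,
      totalDegree_mul_of_isDomain hU0 hU0, h4] at h3
    omega
  obtain ⟨k, hk⟩ : ∃ k, c = C k := ⟨_, totalDegree_eq_zero_iff_eq_C.1 hdeg⟩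
  subst hk
  -- evaluation
  have h01 : pderiv 0 (X 1 : MvPolynomial (Fin 2) O) = 0 := pderiv_X_of_ne (by decide)
  have h00 : pderiv 0 (X 0 : MvPolynomial (Fin 2) O) = 1 := pderiv_X_self 0
  have e1 : Polynomial.X ^ 2 * (ev O U * Polynomial.C k)
      = (n ^ 2 : Polynomial O) * Polynomial.X ^ (n ^ 2) * Polynomial.X ^ (n ^ 2) := by
    have h := congrArg (ev O) hW
    simp only [wr, map_sub, map_mul, g.eva, g.evb, zero_mul, sub_zero, ev_y, hc] at h
    have hC : ev O (C k) = Polynomial.C k := by simp [ev]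
    rw [hC] at h
    have h' := g.evd
    linear_combination (-Polynomial.X) * h + Polynomial.X ^ (n ^ 2) * h'
  have e2 : Polynomial.X ^ 4 * (ev O U) ^ 2
      = (n ^ 2 : Polynomial O) * (Polynomial.X ^ (n ^ 2)) ^ 4 := by
    have h := congrArg (fun z => ev O (pderiv 0 z)) hU
    simp only [pderiv0_quar, Derivation.leibniz, smul_eq_mul, Derivation.leibniz_pow,
      nsmul_eq_mul, h00, h01] at h
    simp only [quar, map_sub, map_mul, map_add, map_pow, g.eva, g.evb, ev_x, ev_y] at h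
    simp only [map_ofNat, map_one] at h
    have h' := g.evd
    have h3 := congrArg (fun z => Polynomial.X * z) h
    linear_combination (-1) * h3 + (Polynomial.X ^ (n ^ 2)) ^ 3 * h'
  have hn2 : (n ^ 2 : Polynomial O) ≠ 0 := by
    have : ((n ^ 2 : ℕ) : Polynomial O) ≠ 0 := by
      rw [Nat.cast_ne_zero]; exact pow_ne_zero 2 hn
    push_cast at this; exact this
  have e3 : (Polynomial.C k) ^ 2 = (n ^ 2 : Polynomial O) := by
    apply mul_left_cancel₀ (mul_ne_zero hn2
      (pow_ne_zero 4 (pow_ne_zero (n ^ 2) (Polynomial.X_ne_zero (R := O)))))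
    linear_combination (-(Polynomial.C k) ^ 2) * e2 +
      (Polynomial.X ^ 2 * (ev O U * Polynomial.C k)
      + (n ^ 2 : Polynomial O) * Polynomial.X ^ (n ^ 2) * Polynomial.X ^ (n ^ 2)) * e1
  have e4 : k ^ 2 = (n : O) ^ 2 := by
    apply Polynomial.C_injective
    rw [map_pow, e3, map_pow, map_natCast]
  have hCn : (C (n : O) : MvPolynomial (Fin 2) O) = n := map_natCast C n
  rcases sq_eq_sq_iff_eq_or_eq_neg.1 e4 with rfl | rfl
  · refine ⟨U, hU, ?_, ?_⟩
    · rw [hW, hc, hCn]; ring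
    · rw [hW1, hc, hCn]; ring
  · refine ⟨-U, by rw [hU]; ring, ?_, ?_⟩
    · rw [hW, hc, map_neg, hCn]; ring
    · rw [hW1, hc, map_neg, hCn]; ring

section modl

variable (ℓ : ℕ) [Fact ℓ.Prime] (q : O →+* ZMod ℓ)

/-- The partial derivatives of the forms `a, b` of degree `ℓ ^ 2` are divisible by `ℓ`. -/
lemma map_pderiv (φ : MvPolynomial (Fin 2) O) (i : Fin 2) :
    map q (pderiv i φ) = pderiv i (map q φ) := by
  rw [pderiv_map]

lemma pderiv_eq_zero_of_dvd {K : Type} [Field K] {m : ℕ} (hm : m ≠ 0)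
    {a b : MvPolynomial (Fin 2) K} {i : Fin 2} (ha : a.IsHomogeneous m)
    (hrel : IsRelPrime a b) (h : b * pderiv i a = a * pderiv i b) : pderiv i a = 0 := by
  by_contra hne
  have ha0 : a ≠ 0 := by rintro rfl; simp at hne
  have hd : a ∣ b * pderiv i a := ⟨_, h⟩
  have hd' : a ∣ pderiv i a := hrel.dvd_of_dvd_mul_left hd
  have h1 := totalDegree_le_of_dvd_of_isDomain hd' hne
  have h2 := (ha.pderiv (i := i)).totalDegree hne
  have h3 := ha.totalDegree ha0
  omega

/-- The forms defining multiplication by `ℓ`: here `U ∈ (a, b, ℓ)`. -/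
theorem main_forms [CharZero O] (h2 : IsUnit (2 : O))
    (hq : ∀ r : O, q r = 0 ↔ (ℓ : O) ∣ r) :
    ∃ a b U : MvPolynomial (Fin 2) O, Good ℓ a b ∧ quar a b = quar (X 0) (X 1) * U ^ 2 ∧
      ∃ α β γ : MvPolynomial (Fin 2) O, U = α * a + β * b + (ℓ : MvPolynomial (Fin 2) O) * γ := by
  have hℓ : ℓ ≠ 0 := (Fact.out : ℓ.Prime).ne_zero
  obtain ⟨a, b, U₀, g, hU₀⟩ := exists_good (O := O) h2 ℓ hℓ
  obtain ⟨U, hU, hw0, hw1⟩ := wr_eq h2 hℓ g hU₀
  refine ⟨a, b, U, g, hU, ?_⟩
  have hCℓ : (C (ℓ : O) : MvPolynomial (Fin 2) O) = ℓ := map_natCast C ℓ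
  have hℓ0 : (ℓ : MvPolynomial (Fin 2) O) ≠ 0 := by
    rw [← hCℓ]
    intro h
    rw [map_eq_zero_iff C (C_injective _ _)] at h
    exact hℓ (by exact_mod_cast h)
  have hdvd : ∀ φ : MvPolynomial (Fin 2) O, (ℓ : MvPolynomial (Fin 2) O) ∣ φ ↔ map q φ = 0 := by
    intro φ
    rw [← hCℓ]
    exact C_dvd_iff_map_hom_eq_zero q (ℓ : O) hq φ
  have hqℓ : map q (ℓ : MvPolynomial (Fin 2) O) = 0 := (hdvd _).1 dvd_rfl
  set A := map q a with hA
  set B := map q b with hB
  have hAh : A.IsHomogeneous (ℓ ^ 2) := g.ha.map q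
  have hBh : B.IsHomogeneous (ℓ ^ 2) := g.hb.map q
  have hrad : ∀ i, (X i : MvPolynomial (Fin 2) O) ∈ (Ideal.span {a, b}).radical →
      (X i : MvPolynomial (Fin 2) (ZMod ℓ)) ∈ (Ideal.span {A, B}).radical := by
    rintro i ⟨k, hk⟩
    refine ⟨k, ?_⟩
    have := Ideal.mem_map_of_mem (map q) hk
    rw [Ideal.map_span, Set.image_pair, map_pow, map_X] at this
    exact this
  have hrel : IsRelPrime A B := relprime_of_radical (hrad 0 g.rx) (hrad 1 g.ry)
  have hz : ∀ i, map q (wr i a b) = 0 := by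
    intro i
    fin_cases i
    · simp only [Fin.zero_eta, hw0, map_mul, hqℓ, zero_mul]
    · simp only [Fin.mk_one, hw1, map_neg, map_mul, hqℓ, zero_mul, neg_zero]
  have hz' : ∀ i, B * pderiv i A = A * pderiv i B := by
    intro i
    have := hz i
    rw [wr, map_sub, map_mul, map_mul, map_pderiv, map_pderiv, sub_eq_zero] at this
    exact this
  have hpa : ∀ i, ∃ c, pderiv i a = ℓ * c := by
    intro i
    have : map q (pderiv i a) = 0 := by
      rw [map_pderiv]
      exact pderiv_eq_zero_of_dvd (pow_ne_zero 2 hℓ) hAh hrel (hz' i)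
    exact (hdvd _).2 this
  have hpb : ∀ i, ∃ c, pderiv i b = ℓ * c := by
    intro i
    have : map q (pderiv i b) = 0 := by
      rw [map_pderiv]
      exact pderiv_eq_zero_of_dvd (pow_ne_zero 2 hℓ) hBh hrel.symm (hz' i).symm
    exact (hdvd _).2 this
  obtain ⟨a₀, ha₀⟩ := hpa 0
  obtain ⟨a₁, ha₁⟩ := hpa 1
  obtain ⟨b₀, hb₀⟩ := hpb 0
  obtain ⟨b₁, hb₁⟩ := hpb 1
  have hEa : X 0 * a₀ + X 1 * a₁ = (ℓ : MvPolynomial (Fin 2) O) * a := by
    apply mul_left_cancel₀ hℓ0
    have := euler2 g.ha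
    rw [ha₀, ha₁] at this
    push_cast at this
    linear_combination this
  have hEb : X 0 * b₀ + X 1 * b₁ = (ℓ : MvPolynomial (Fin 2) O) * b := by
    apply mul_left_cancel₀ hℓ0
    have := euler2 g.hb
    rw [hb₀, hb₁] at this
    push_cast at this
    linear_combination this
  have hUe : b * a₀ - a * b₀ = X 1 * U := by
    apply mul_left_cancel₀ hℓ0
    have := hw0
    rw [wr, ha₀, hb₀] at this
    linear_combination this
  -- reduce modulo `ℓ`
  have hyx : IsRelPrime (X 1 : MvPolynomial (Fin 2) (ZMod ℓ)) (X 0) := (relprime_XY).symm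
  have hda : ∃ c, map q a₀ = X 1 * c := by
    apply hyx.dvd_of_dvd_mul_left
    have := congrArg (map q) hEa
    rw [map_add, map_mul, map_mul, map_mul, hqℓ, zero_mul, map_X, map_X] at this
    exact ⟨- map q a₁, by linear_combination this⟩
  have hdb : ∃ c, map q b₀ = X 1 * c := by
    apply hyx.dvd_of_dvd_mul_left
    have := congrArg (map q) hEb
    rw [map_add, map_mul, map_mul, map_mul, hqℓ, zero_mul, map_X, map_X] at this
    exact ⟨- map q b₁, by linear_combination this⟩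
  obtain ⟨c, hc⟩ := hda
  obtain ⟨d, hd⟩ := hdb
  have hsurj : Function.Surjective (map (σ := Fin 2) q) := map_surjective q (ZMod.ringHom_surjective q)
  obtain ⟨c', rfl⟩ := hsurj c
  obtain ⟨d', rfl⟩ := hsurj d
  have hfin : map q (U - (b * c' - a * d')) = 0 := by
    have := congrArg (map q) hUe
    rw [map_sub, map_mul, map_mul, map_mul, hc, hd, map_X] at this
    apply mul_left_cancel₀ (X_ne_zero (R := ZMod ℓ) (1 : Fin 2))
    rw [map_sub, map_sub, map_mul, map_mul]
    linear_combination -this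
  obtain ⟨γ, hγ⟩ := (hdvd _).2 hfin
  exact ⟨-d', c', γ, by linear_combination hγ⟩

end modl

end Pool.Agent.helper73.Spl
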